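import Pool.Agent.L7h76.PT.Fam

/-!
# Actions with amenable stabilizers and almost invariant probability measures
-/

set_option autoImplicit false

namespace Pool.Agent.L7h59.IA

open MeasureTheory
open Pool.Agent.Q169.PT.Pub (Amenable)
open Pool.Agent.L7h76.PT

noncomputable section

/-- layer cake, for an action -/
theorem layer {L X : Type} [Group L] [DecidableEq X] (act : L →* Equiv.Perm X) (u : X → ℝ)
    (hu : ∀ x, 0 ≤ u x) (E : Finset X)
    (hE : ∀ x, x ∉ E → u x = 0) (S : Finset L) (ε : ℝ)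
    (h : ∑ s ∈ S, ∑ x ∈ E, max (u x - u (act s x)) 0 < ε * ∑ x ∈ E, u x) :
    ∃ F : Finset X, F.Nonempty ∧ F ⊆ E ∧ (∀ x ∈ F, 0 < u x) ∧
      ∀ s ∈ S, ((F.filter fun x => act s x ∉ F).card : ℝ) ≤ ε * F.card := by
  classical
  by_contra hcon
  push Not at hcon
  have key : ∀ t : ℝ, ε * ∑ x ∈ E, (Set.Ico 0 (u x)).indicator (1 : ℝ → ℝ) t ≤
      ∑ s ∈ S, ∑ x ∈ E, (Set.Ico (u (act s x)) (u x)).indicator (1 : ℝ → ℝ) t := by
    intro t
    have hnn : ∀ s ∈ S, 0 ≤ ∑ x ∈ E, (Set.Ico (u (act s x)) (u x)).indicator (1 : ℝ → ℝ) t :=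
      fun s _ => Finset.sum_nonneg fun x _ => Set.indicator_nonneg (fun _ _ => zero_le_one) _
    by_cases ht : 0 ≤ t
    · set F : Finset X := E.filter fun x => t < u x with hF
      have h1 : ∑ x ∈ E, (Set.Ico 0 (u x)).indicator (1 : ℝ → ℝ) t = F.card := by
        rw [hF, Finset.card_filter, Nat.cast_sum]
        refine Finset.sum_congr rfl fun x _ => ?_
        by_cases hx : t < u x
        · rw [Set.indicator_of_mem (show t ∈ Set.Ico 0 (u x) from ⟨ht, hx⟩), if_pos hx]
          simp
        · rw [Set.indicator_of_notMem (fun h => hx h.2), if_neg hx]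
          simp
      rw [h1]
      by_cases hne : F.Nonempty
      · obtain ⟨s, hs, h2⟩ := hcon F hne (Finset.filter_subset _ _) (fun x hx => by
          rw [hF, Finset.mem_filter] at hx
          exact ht.trans_lt hx.2)
        refine h2.le.trans (le_trans ?_ (Finset.single_le_sum hnn hs))
        have h3 : (F.filter fun x => act s x ∉ F) =
            (E.filter fun x => t < u x ∧ ¬ t < u (act s x)) := by
          ext x
          simp only [hF, Finset.mem_filter]
          constructor
          · rintro ⟨⟨h4, h5⟩, h6⟩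
            refine ⟨h4, h5, fun h7 => h6 ⟨?_, h7⟩⟩
            by_contra h8
            rw [hE _ h8] at h7
            exact absurd h7 (not_lt.2 ht)
          · rintro ⟨h4, h5, h6⟩
            exact ⟨⟨h4, h5⟩, fun h7 => h6 h7.2⟩
        rw [h3, Finset.card_filter, Nat.cast_sum]
        refine Finset.sum_le_sum fun x _ => ?_
        by_cases hx : t < u x ∧ ¬ t < u (act s x)
        · rw [Set.indicator_of_mem (show t ∈ Set.Ico (u (act s x)) (u x) from
            ⟨not_lt.1 hx.2, hx.1⟩), if_pos hx]
          simp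
        · rw [if_neg hx]
          simpa using Set.indicator_nonneg (s := Set.Ico (u (act s x)) (u x)) (f := (1 : ℝ → ℝ))
            (fun _ _ => zero_le_one) t
      · rw [Finset.not_nonempty_iff_eq_empty.1 hne]
        simpa using Finset.sum_nonneg hnn
    · have h1 : ∑ x ∈ E, (Set.Ico 0 (u x)).indicator (1 : ℝ → ℝ) t = 0 :=
        Finset.sum_eq_zero fun x _ => Set.indicator_of_notMem (fun h => ht h.1) _
      rw [h1, mul_zero]
      exact Finset.sum_nonneg hnn
  have hint : ∀ a b : ℝ, Integrable ((Set.Ico a b).indicator (1 : ℝ → ℝ)) := fun a b =>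
    (integrable_indicator_iff measurableSet_Ico).2 (integrableOn_const (by simp) (by simp))
  have hval : ∀ a b : ℝ, ∫ t, (Set.Ico a b).indicator (1 : ℝ → ℝ) t = max (b - a) 0 := by
    intro a b
    rw [integral_indicator_one measurableSet_Ico, Real.volume_real_Ico]
  have hmono := integral_mono (μ := volume)
    (f := fun t : ℝ => ε * ∑ x ∈ E, (Set.Ico 0 (u x)).indicator (1 : ℝ → ℝ) t)
    (g := fun t : ℝ => ∑ s ∈ S, ∑ x ∈ E, (Set.Ico (u (act s x)) (u x)).indicator (1 : ℝ → ℝ) t)
    ((integrable_finset_sum _ fun x _ => hint _ _).const_mul ε)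
    (integrable_finset_sum _ fun s _ => integrable_finset_sum _ fun x _ => hint _ _) key
  rw [integral_const_mul, integral_finset_sum _ (fun x _ => hint _ _),
    integral_finset_sum _ (fun s _ => integrable_finset_sum _ fun x _ => hint _ _)] at hmono
  have h2 : ∑ x ∈ E, ∫ t, (Set.Ico 0 (u x)).indicator (1 : ℝ → ℝ) t = ∑ x ∈ E, u x :=
    Finset.sum_congr rfl fun x _ => by rw [hval, sub_zero, max_eq_left (hu x)]
  have h3 : ∑ s ∈ S, ∫ t, ∑ x ∈ E, (Set.Ico (u (act s x)) (u x)).indicator (1 : ℝ → ℝ) t =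
      ∑ s ∈ S, ∑ x ∈ E, max (u x - u (act s x)) 0 :=
    Finset.sum_congr rfl fun s _ => by
      rw [integral_finset_sum _ (fun x _ => hint _ _)]
      exact Finset.sum_congr rfl fun x _ => hval _ _
  rw [h2, h3] at hmono
  exact absurd h (not_lt.2 hmono)

/-- the stabilizer -/
def stab {L X : Type} [Group L] (act : L →* Equiv.Perm X) (x : X) : Subgroup L where
  carrier := {l | act l x = x}
  one_mem' := by
    change act 1 x = x
    rw [map_one]
    rfl
  mul_mem' := by
    intro a b ha hb
    change act (a * b) x = x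
    rw [map_mul]
    change act a (act b x) = x
    change act a x = x at ha
    change act b x = x at hb
    rw [hb, ha]
  inv_mem' := by
    intro a ha
    change act a⁻¹ x = x
    change act a x = x at ha
    conv_lhs => rw [← ha]
    rw [map_inv]
    exact Equiv.symm_apply_apply _ _

/-- **A group acting with amenable stabilizers and almost invariant finite sets is amenable.** -/
theorem amenable_of_sets {L X : Type} [Group L] [DecidableEq X] (act : L →* Equiv.Perm X)
    (h : ∀ (S : Finset L) (ε : ℝ), 0 < ε → ∃ F : Finset X, F.Nonempty ∧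
      (∀ x ∈ F, Amenable (stab act x)) ∧
      ∀ s ∈ S, ((F.filter fun x => act s x ∉ F).card : ℝ) ≤ ε * F.card) : Amenable L := by
  classical
  intro A ε hε
  obtain ⟨F, hF, hst, hb⟩ := h A (ε / 2 / (A.card + 1)) (by positivity)
  -- the orbits
  let R : Setoid X := ⟨fun x y => ∃ l, act l x = y, ⟨fun x => ⟨1, by rw [map_one]; rfl⟩,
    fun {x y} => by
      rintro ⟨l, hl⟩
      refine ⟨l⁻¹, ?_⟩
      rw [← hl, map_inv]
      exact Equiv.symm_apply_apply _ _,
    fun {x y z} => by
      rintro ⟨l, hl⟩ ⟨m, hm⟩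
      refine ⟨m * l, ?_⟩
      rw [map_mul]
      change act m (act l x) = z
      rw [hl, hm]⟩⟩
  let c : X → Quotient R := fun x => Quotient.mk _ x
  have hc : ∀ x y : X, c x = c y ↔ ∃ l, act l x = y := fun x y => Quotient.eq
  have hF0 : (0 : ℝ) < F.card := by exact_mod_cast hF.card_pos
  have hsum : ∑ s ∈ A, ((F.filter fun x => act s x ∉ F).card : ℝ) < ε / 2 * F.card := by
    calc ∑ s ∈ A, ((F.filter fun x => act s x ∉ F).card : ℝ)
        ≤ ∑ _s ∈ A, ε / 2 / (A.card + 1) * F.card := Finset.sum_le_sum hb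
      _ = (A.card / (A.card + 1)) * (ε / 2 * F.card) := by
          rw [Finset.sum_const, nsmul_eq_mul]
          ring
      _ < 1 * (ε / 2 * F.card) := by
          apply mul_lt_mul_of_pos_right _ (by positivity)
          rw [div_lt_one (by positivity)]
          linarith
      _ = ε / 2 * F.card := one_mul _
  have e1 : ∀ E : Finset X, E ⊆ F → (E.card : ℝ) =
      ∑ q ∈ F.image c, ((E.filter fun x => c x = q).card : ℝ) := by
    intro E hE
    have := Finset.card_eq_sum_card_fiberwise (s := E) (t := F.image c) (f := c)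
      (fun x hx => Finset.mem_image_of_mem _ (hE hx))
    exact_mod_cast this
  have hlt : ∑ q ∈ F.image c, ∑ s ∈ A, (((F.filter fun x => act s x ∉ F).filter
      fun x => c x = q).card : ℝ) <
      ∑ q ∈ F.image c, ε / 2 * ((F.filter fun x => c x = q).card : ℝ) := by
    rw [Finset.sum_comm, ← Finset.mul_sum, ← e1 F (Finset.Subset.refl _)]
    refine lt_of_le_of_lt (le_of_eq ?_) hsum
    refine Finset.sum_congr rfl fun s _ => ?_
    rw [← e1 _ (Finset.filter_subset _ _)]
  obtain ⟨q, hq, hlt⟩ := Finset.exists_lt_of_sum_lt hlt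
  obtain ⟨x0, hx0, rfl⟩ := Finset.mem_image.1 hq
  set F' : Finset X := F.filter fun x => c x = c x0 with hF'
  have hmemF' : ∀ x, x ∈ F' ↔ x ∈ F ∧ c x = c x0 := fun x => Finset.mem_filter
  -- the boundary of `F'`
  have hbd : ∀ s ∈ A, ((F'.filter fun x => act s x ∉ F').card : ℝ) ≤ ε / 2 * F'.card := by
    intro s hs
    refine le_trans ?_ hlt.le
    refine le_trans ?_ (Finset.single_le_sum (f := fun s => (((F.filter fun x => act s x ∉ F).filter
      fun x => c x = c x0).card : ℝ)) (fun _ _ => Nat.cast_nonneg _) hs)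
    have hsub : (F'.filter fun x => act s x ∉ F') ⊆
        ((F.filter fun x => act s x ∉ F).filter fun x => c x = c x0) := by
      intro x hx
      rw [Finset.mem_filter, hmemF', hmemF'] at hx
      rw [Finset.mem_filter, Finset.mem_filter]
      refine ⟨⟨hx.1.1, fun h => hx.2 ⟨h, ?_⟩⟩, hx.1.2⟩
      rw [← hx.1.2]
      exact ((hc _ _).2 ⟨s, rfl⟩).symm
    exact_mod_cast Finset.card_le_card hsub
  -- representatives
  have hr : ∀ x : X, ∃ l : L, x ∈ F' → act l x0 = x := by
    intro x
    by_cases hx : x ∈ F'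
    · obtain ⟨l, hl⟩ := (hc _ _).1 ((hmemF' x).1 hx).2.symm
      exact ⟨l, fun _ => hl⟩
    · exact ⟨1, fun h => absurd h hx⟩
  choose r hr using hr
  have hC : Amenable (stab act x0) := hst x0 hx0
  -- the elements of the stabilizer
  let k : L → X → L := fun s x => (r (act s x))⁻¹ * s * r x
  have hk : ∀ s x, x ∈ F' → act s x ∈ F' → k s x ∈ stab act x0 := by
    intro s x hx hsx
    change act ((r (act s x))⁻¹ * s * r x) x0 = x0
    rw [map_mul, map_mul, map_inv]
    change (act (r (act s x)))⁻¹ (act s (act (r x) x0)) = x0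
    rw [hr x hx]
    rw [Equiv.Perm.inv_eq_iff_eq]
    exact (hr _ hsx).symm
  let T : Finset (stab act x0) := (A ×ˢ F').image fun p =>
    if h : k p.1 p.2 ∈ stab act x0 then ⟨k p.1 p.2, h⟩ else 1
  obtain ⟨E, hE, hEb⟩ := hC T (ε / 2) (by positivity)
  let Φ : X × stab act x0 → L := fun p => r p.1 * p.2
  have hΦ : ∀ p, p.1 ∈ F' → act (Φ p) x0 = p.1 := by
    rintro ⟨x, e⟩ hx
    change act (r x * e) x0 = x
    rw [map_mul]
    change act (r x) (act e x0) = x
    have he : act (e : L) x0 = x0 := e.2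
    rw [he, hr x hx]
  have hinj : Set.InjOn Φ ((F' ×ˢ E : Finset _) : Set (X × stab act x0)) := by
    rintro ⟨x, e⟩ hp ⟨y, f⟩ hp' heq
    rw [Finset.mem_coe, Finset.mem_product] at hp hp'
    have h1 : x = y := by
      have h2 := hΦ (x, e) hp.1
      have h3 := hΦ (y, f) hp'.1
      rw [heq] at h2
      exact h2.symm.trans h3
    subst h1
    have h4 : (e : L) = f := mul_left_cancel heq
    exact Prod.ext rfl (Subtype.ext h4)
  set D : Finset L := (F' ×ˢ E).image Φ with hD
  have hDcard : (D.card : ℝ) = F'.card * E.card := by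
    rw [hD, Finset.card_image_of_injOn hinj, Finset.card_product]
    push_cast
    ring
  have hne' : F'.Nonempty := ⟨x0, (hmemF' _).2 ⟨hx0, rfl⟩⟩
  refine ⟨D, (hne'.product hE).image _, fun s hs => ?_⟩
  have h3 : {x | x ∈ D ∧ s * x ∉ D} = ((D.filter fun x => s * x ∉ D : Finset L) : Set L) := by
    ext x
    simp
  rw [h3, Set.ncard_coe_finset, hDcard]
  -- covering
  have hcov : (D.filter fun x => s * x ∉ D) ⊆
      (((F'.filter fun x => act s x ∉ F') ×ˢ E).image Φ) ∪
      (F'.filter fun x => act s x ∈ F').biUnion fun x =>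
        ((E.filter fun e => ∀ h : k s x ∈ stab act x0, (⟨k s x, h⟩ : stab act x0) * e ∉ E).image
          fun e => Φ (x, e)) := by
    intro y hy
    rw [Finset.mem_filter, hD, Finset.mem_image] at hy
    obtain ⟨⟨⟨x, e⟩, hp, rfl⟩, hy⟩ := hy
    rw [Finset.mem_product] at hp
    rw [Finset.mem_union]
    by_cases hsx : act s x ∈ F'
    · right
      rw [Finset.mem_biUnion]
      refine ⟨x, Finset.mem_filter.2 ⟨hp.1, hsx⟩, Finset.mem_image.2 ⟨e, Finset.mem_filter.2
        ⟨hp.2, fun h hcon => hy ?_⟩, rfl⟩⟩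
      refine Finset.mem_image.2 ⟨(act s x, ⟨k s x, h⟩ * e), Finset.mem_product.2 ⟨hsx, hcon⟩, ?_⟩
      change r (act s x) * ((r (act s x))⁻¹ * s * r x * e) = s * (r x * e)
      group
    · left
      exact Finset.mem_image.2 ⟨(x, e), Finset.mem_product.2 ⟨Finset.mem_filter.2 ⟨hp.1, hsx⟩, hp.2⟩,
        rfl⟩
  have hcard := Finset.card_le_card hcov
  have hb1 : (((F'.filter fun x => act s x ∉ F') ×ˢ E).image Φ).card ≤
      (F'.filter fun x => act s x ∉ F').card * E.card := by
    refine Finset.card_image_le.trans ?_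
    rw [Finset.card_product]
  have hb2 : (((F'.filter fun x => act s x ∈ F').biUnion fun x =>
        ((E.filter fun e => ∀ h : k s x ∈ stab act x0, (⟨k s x, h⟩ : stab act x0) * e ∉ E).image
          fun e => Φ (x, e))).card : ℝ) ≤ F'.card * (ε / 2 * E.card) := by
    refine (Nat.cast_le.2 (Finset.card_biUnion_le)).trans ?_
    rw [Nat.cast_sum]
    refine (Finset.sum_le_sum (g := fun _ => ε / 2 * (E.card : ℝ)) fun x hx => ?_).trans ?_
    · rw [Finset.mem_filter] at hx
      refine (Nat.cast_le.2 Finset.card_image_le).trans ?_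
      have hkx := hk s x hx.1 hx.2
      have h5 := hEb ⟨k s x, hkx⟩ (Finset.mem_image.2 ⟨(s, x), Finset.mem_product.2 ⟨hs, hx.1⟩,
        dif_pos hkx⟩)
      have h6 : {y | y ∈ E ∧ (⟨k s x, hkx⟩ : stab act x0) * y ∉ E} =
          ((E.filter fun e => ∀ h : k s x ∈ stab act x0, (⟨k s x, h⟩ : stab act x0) * e ∉ E :
            Finset (stab act x0)) : Set (stab act x0)) := by
        ext y
        rw [Set.mem_setOf_eq, Finset.mem_coe, Finset.mem_filter]
        exact ⟨fun h => ⟨h.1, fun _ => h.2⟩, fun h => ⟨h.1, h.2 hkx⟩⟩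
      rw [h6, Set.ncard_coe_finset] at h5
      exact h5
    · rw [Finset.sum_const, nsmul_eq_mul]
      refine mul_le_mul_of_nonneg_right ?_ (by positivity)
      exact_mod_cast Finset.card_filter_le _ _
  have hE0 : (0 : ℝ) ≤ E.card := Nat.cast_nonneg _
  calc ((D.filter fun x => s * x ∉ D).card : ℝ)
      ≤ ((((F'.filter fun x => act s x ∉ F') ×ˢ E).image Φ).card : ℝ) +
        (((F'.filter fun x => act s x ∈ F').biUnion fun x =>
        ((E.filter fun e => ∀ h : k s x ∈ stab act x0, (⟨k s x, h⟩ : stab act x0) * e ∉ E).image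
          fun e => Φ (x, e))).card : ℝ) := by
        exact_mod_cast hcard.trans (Finset.card_union_le _ _)
    _ ≤ ε / 2 * F'.card * E.card + F'.card * (ε / 2 * E.card) := by
        refine add_le_add ?_ hb2
        refine (Nat.cast_le.2 hb1).trans ?_
        push_cast
        exact mul_le_mul_of_nonneg_right (hbd s hs) hE0
    _ = ε * (F'.card * E.card) := by ring

end

end Pool.Agent.L7h59.IA
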