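import Pool.Agent.L7h59.IA.Net

/-!
# Asymptotically invariant nets of probability measures on a `G`-set
-/

set_option autoImplicit false

namespace Pool.Agent.L7h59.IA

open Filter Topology
open Pool.Agent.Q169.PT (Rep IsCoc Tempered)
open Pool.Agent.Q169.PT.Pub (Amenable)
open Pool.Agent.L7h76.PT

noncomputable section

/-- The `ℓ¹`-distance `∑_y |μ(g y) - μ(y)|` of `μ` and a translate of `μ`. -/
def moveDist {G Y : Type} [Group G] [MulAction G Y] (g : G) (μ : Y →₀ ℝ) : ℝ :=
  ∑ᶠ y, |μ (g • y) - μ y|

/-- A net of finitely supported probability measures on the `G`-set `Y` that is asymptotically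
invariant: `∑_y |μ(g y) - μ(y)|` tends to zero for every `g`. -/
structure InvariantNet (G : Type) {Y ι : Type} [Group G] [MulAction G Y] (l : Filter ι)
    (μ : ι → Y →₀ ℝ) : Prop where
  nonneg : ∀ i y, 0 ≤ μ i y
  total : ∀ i, mass (μ i) (fun _ => True) = 1
  inv : ∀ g : G, Tendsto (fun i => moveDist g (μ i)) l (𝓝 0)

section gen

variable {Y ι : Type} {l : Filter ι} {μ : ι → Y →₀ ℝ} (h0 : ∀ i y, 0 ≤ μ i y)
  (h1 : ∀ i, mass (μ i) (fun _ => True) = 1)

include h0 h1

lemma gae_iff (P : Y → Prop) :
    AlmostEvery l μ P ↔ Tendsto (fun i => mass (μ i) fun x => ¬ P x) l (𝓝 0) := by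
  have e1 : ∀ i, mass (μ i) P = 1 - mass (μ i) fun x => ¬ P x := fun i => by
    rw [← h1 i, ← mass_compl (μ i) P]
    ring
  have e2 : ∀ i, (mass (μ i) fun x => ¬ P x) = 1 - mass (μ i) P := fun i => by
    rw [e1 i]
    ring
  constructor
  · intro h
    have := (tendsto_const_nhds (x := (1 : ℝ))).sub h
    rw [sub_self] at this
    exact this.congr fun i => (e2 i).symm
  · intro h
    have := (tendsto_const_nhds (x := (1 : ℝ))).sub h
    rw [sub_zero] at this
    exact this.congr fun i => (e1 i).symm

lemma gae_mono {P Q : Y → Prop} (h : ∀ x, P x → Q x) (hP : AlmostEvery l μ P) :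
    AlmostEvery l μ Q := by
  rw [gae_iff h0 h1] at hP ⊢
  exact squeeze_zero (fun i => mass_nonneg (h0 i) _)
    (fun i => mass_mono (h0 i) fun x hx hxP => hx (h x hxP)) hP

lemma gae_and {P Q : Y → Prop} (hP : AlmostEvery l μ P) (hQ : AlmostEvery l μ Q) :
    AlmostEvery l μ fun x => P x ∧ Q x := by
  rw [gae_iff h0 h1] at hP hQ ⊢
  have h := hP.add hQ
  rw [add_zero] at h
  refine squeeze_zero (fun i => mass_nonneg (h0 i) _) (fun i => ?_) h
  refine le_trans (mass_mono (h0 i) fun x hx => ?_) (mass_or (h0 i) _ _)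
  by_cases hxP : P x
  · exact Or.inr fun hxQ => hx ⟨hxP, hxQ⟩
  · exact Or.inl hxP

omit h0 in
lemma gae_true : AlmostEvery l μ fun _ => True := by
  unfold AlmostEvery
  simp only [h1]
  exact tendsto_const_nhds

end gen

lemma moveDist_ge {G Y : Type} [Group G] [MulAction G Y] (g : G) (μ : Y →₀ ℝ) (T : Finset Y) :
    ∑ y ∈ T, |μ (g • y) - μ y| ≤ moveDist g μ := by
  classical
  unfold moveDist
  set T0 : Finset Y := μ.support ∪ μ.support.image fun y => g⁻¹ • y with hT0
  have e : ∑ᶠ y, |μ (g • y) - μ y| = ∑ y ∈ T0 ∪ T, |μ (g • y) - μ y| := by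
    refine finsum_eq_sum_of_support_subset _ fun y hy => ?_
    by_contra hcon
    apply hy
    change |μ (g • y) - μ y| = 0
    have hy0 : y ∉ T0 := fun h => hcon (Finset.mem_coe.2 (Finset.mem_union_left _ h))
    have h1 : y ∉ μ.support := fun h1 => hy0 (Finset.mem_union_left _ h1)
    have h2 : g • y ∉ μ.support := fun h2 => hy0 (Finset.mem_union_right _
      (Finset.mem_image.2 ⟨_, h2, inv_smul_smul g y⟩))
    rw [Finsupp.notMem_support_iff.1 h1, Finsupp.notMem_support_iff.1 h2, sub_zero, abs_zero]
  rw [e]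
  exact Finset.sum_le_sum_of_subset_of_nonneg Finset.subset_union_right fun _ _ _ => abs_nonneg _

lemma stab_smul {L X : Type} [Group L] (act : L →* Equiv.Perm X) (s : L) (x : X)
    (ha : Amenable (stab act x)) : Amenable (stab act (act s x)) := by
  have hmem : ∀ y : stab act (act s x), s⁻¹ * (y : L) * s ∈ stab act x := by
    rintro ⟨y, hy⟩
    change act (s⁻¹ * y * s) x = x
    change act y (act s x) = act s x at hy
    rw [map_mul, map_mul, map_inv]
    change (act s)⁻¹ (act y (act s x)) = x
    rw [hy]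
    exact Equiv.symm_apply_apply _ _
  let φ : stab act (act s x) →* stab act x :=
    { toFun := fun y => ⟨s⁻¹ * (y : L) * s, hmem y⟩
      map_one' := by
        apply Subtype.ext
        change s⁻¹ * ((1 : stab act (act s x)) : L) * s = 1
        rw [OneMemClass.coe_one]
        group
      map_mul' := fun y z => by
        apply Subtype.ext
        change s⁻¹ * ((y * z : stab act (act s x)) : L) * s =
          (s⁻¹ * (y : L) * s) * (s⁻¹ * (z : L) * s)
        rw [MulMemClass.coe_mul]
        group }
  refine amenable_of_inj φ (fun y z hyz => ?_) ha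
  have h1 : s⁻¹ * (y : L) * s = s⁻¹ * (z : L) * s := congrArg Subtype.val hyz
  exact Subtype.ext (mul_left_cancel (mul_right_cancel h1))

section act

variable {G Y ι : Type} [Group G] [MulAction G Y] {l : Filter ι} {μ : ι → Y →₀ ℝ}
  (hμ : InvariantNet G l μ)

/-- the action of a subgroup -/
def sact (Y : Type) [MulAction G Y] (L : Subgroup G) : L →* Equiv.Perm Y :=
  (MulAction.toPermHom G Y).comp L.subtype

lemma sact_apply (L : Subgroup G) (s : L) (y : Y) : sact Y L s y = (s : G) • y := rfl

include hμ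

/-- almost all stabilizers in a nonamenable subgroup are nonamenable -/
theorem gae_stab (L : Subgroup G) (hL : ¬ Amenable L) :
    AlmostEvery l μ fun y => ¬ Amenable (stab (sact Y L) y) := by
  classical
  rw [gae_iff hμ.nonneg hμ.total]
  simp only [not_not]
  by_contra hcon
  apply hL
  rw [Metric.tendsto_nhds] at hcon
  push Not at hcon
  obtain ⟨c, hc, hfr⟩ := hcon
  have hfr' : ∃ᶠ i in l, c ≤ mass (μ i) fun h => Amenable (stab (sact Y L) h) := by
    refine hfr.mono fun i hi => ?_
    rw [Real.dist_eq, sub_zero, abs_of_nonneg (mass_nonneg (hμ.nonneg i) _)] at hi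
    exact hi
  refine amenable_of_sets (sact Y L) fun S ε hε => ?_
  have hev : ∀ᶠ i in l, ∀ s ∈ S, moveDist (s : G) (μ i) < ε * c / (S.card + 1) := by
    rw [Filter.eventually_all_finset]
    intro s _
    exact (hμ.inv s).eventually_lt_const (by positivity)
  obtain ⟨i, hi, hev⟩ := (hfr'.and_eventually hev).exists
  set B : Y → Prop := fun h => Amenable (stab (sact Y L) h) with hB
  set u : Y → ℝ := fun x => if B x then μ i x else 0 with hu
  have hu0 : ∀ x, 0 ≤ u x := fun x => by
    simp only [hu]
    split_ifs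
    · exact hμ.nonneg i x
    · exact le_rfl
  have hsum : ∑ x ∈ (μ i).support, u x = mass (μ i) B := (mass_eq (μ i) B _ subset_rfl).symm
  obtain ⟨F, hF, -, hpos, hb⟩ := layer (sact Y L) u hu0 (μ i).support (fun x hx => by
    simp only [hu]
    rw [Finsupp.notMem_support_iff.1 hx]
    split_ifs <;> rfl) S ε (by
    have h1 : ∀ s ∈ S, ∑ x ∈ (μ i).support, max (u x - u (sact Y L s x)) 0 ≤
        ε * c / (S.card + 1) := by
      intro s hs
      refine le_trans (Finset.sum_le_sum fun x _ => ?_)
        ((moveDist_ge (s : G) (μ i) (μ i).support).trans (hev s hs).le)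
      by_cases hx : B x
      · have hx' : B (sact Y L s x) := stab_smul _ s x hx
        simp only [hu]
        rw [if_pos hx, if_pos hx', sact_apply]
        refine max_le ?_ (abs_nonneg _)
        rw [abs_sub_comm]
        exact le_abs_self _
      · simp only [hu]
        rw [if_neg hx]
        refine max_le ?_ (abs_nonneg _)
        have := hu0 (sact Y L s x)
        simp only [hu] at this
        have h2 := abs_nonneg ((μ i) ((s : G) • x) - (μ i) x)
        linarith
    refine (Finset.sum_le_sum h1).trans_lt ?_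
    rw [Finset.sum_const, nsmul_eq_mul, hsum]
    have h2 : (S.card : ℝ) * (ε * c / (S.card + 1)) = (S.card / (S.card + 1)) * (ε * c) := by ring
    rw [h2]
    calc (S.card : ℝ) / (S.card + 1) * (ε * c) < 1 * (ε * c) := by
          apply mul_lt_mul_of_pos_right _ (by positivity)
          rw [div_lt_one (by positivity)]
          linarith
      _ = ε * c := one_mul _
      _ ≤ ε * mass (μ i) B := mul_le_mul_of_nonneg_left hi hε.le)
  refine ⟨F, hF, fun x hx => ?_, hb⟩
  by_contra hx'
  have h1 := hpos x hx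
  simp only [hu] at h1
  rw [if_neg hx'] at h1
  exact lt_irrefl _ h1

/-- almost all stabilizers meet a nonamenable subgroup in a nonamenable subgroup -/
theorem gae_inf (L : Subgroup G) (hL : ¬ Amenable L) :
    AlmostEvery l μ fun y => ¬ Amenable ↥(L ⊓ MulAction.stabilizer G y) := by
  refine gae_mono hμ.nonneg hμ.total (fun y hy hc => hy ?_) (gae_stab hμ L hL)
  have hmem : ∀ x : stab (sact Y L) y, ((x : L) : G) ∈ L ⊓ MulAction.stabilizer G y := by
    rintro ⟨x, hx⟩
    exact ⟨x.2, hx⟩
  let φ : stab (sact Y L) y →* ↥(L ⊓ MulAction.stabilizer G y) :=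
    { toFun := fun x => ⟨((x : L) : G), hmem x⟩
      map_one' := rfl
      map_mul' := fun _ _ => rfl }
  refine amenable_of_inj φ (fun x y' hxy => ?_) hc
  have h1 := congrArg (fun z : ↥(L ⊓ MulAction.stabilizer G y) => (z : G)) hxy
  exact Subtype.ext (Subtype.ext h1)

omit hμ in
/-- stabilizers normalize the members of an equivariant family -/
lemma stab_le_fam {H : Type} [NormedAddCommGroup H] [InnerProductSpace ℂ H]
    {π : Rep G H} (hπ : Tempered π) {b : G → H} (hb : IsCoc π b) {K : Y → Subgroup G}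
    (hK : ∀ g y, K (g • y) = (K y).map (MulAut.conj g).toMonoidHom) {y : Y}
    (h1 : ¬ Amenable (K y)) {T : Subgroup G} (hT : T ∈ Fam hb) (hle : K y ≤ T) :
    MulAction.stabilizer G y ≤ T := by
  intro g hg
  by_contra hgT
  have h2 : K y ≤ T.map (MulAut.conj g).toMonoidHom := by
    have h3 := Subgroup.map_mono (f := (MulAut.conj g).toMonoidHom) hle
    rwa [← hK, MulAction.mem_stabilizer_iff.1 hg] at h3
  exact not_amenable_of_le (le_inf hle h2) h1 (fam_malnormal hb hπ T hT g hgT)

/-- **Almost all members of an equivariant family are amenable, or the cocycle is unbounded on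
them.** -/
theorem gae_main {H : Type} [NormedAddCommGroup H] [InnerProductSpace ℂ H] [CompleteSpace H]
    {π : Rep G H} (hπ : Tempered π) {b : G → H} (hb : IsCoc π b)
    (hw : ∀ w, ∃ g, b g ≠ π.hom g w - w) (K : Y → Subgroup G)
    (hK : ∀ g y, K (g • y) = (K y).map (MulAut.conj g).toMonoidHom) :
    AlmostEvery l μ fun y => Amenable (K y) ∨ ∀ C : ℝ, ∃ g ∈ K y, C < ‖b g‖ := by
  by_cases hF : ∃ S, S ∈ Fam hb
  · obtain ⟨S, hS⟩ := hF
    obtain ⟨g, hg⟩ : ∃ g, g ∉ S := by
      by_contra hcon
      push Not at hcon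
      exact fam_ne_top hb hw S hS (eq_top_iff.2 fun g _ => hcon g)
    have hS' := fam_conj hb S hS g
    have hne : S ≠ S.map (MulAut.conj g).toMonoidHom := by
      intro he
      have h1 := fam_malnormal hb hπ S hS g hg
      rw [← he, inf_idem] at h1
      exact hS.1 h1
    refine gae_mono hμ.nonneg hμ.total (fun y hy => ?_)
      (gae_and hμ.nonneg hμ.total (gae_inf hμ S hS.1) (gae_inf hμ _ hS'.1))
    by_contra hcon
    push Not at hcon
    obtain ⟨h1, C, h2⟩ := hcon
    obtain ⟨T, hT, hle⟩ := (fam_iff hb _ h1).1 ⟨C, h2⟩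
    have hst := stab_le_fam hπ hb hK h1 hT hle
    have e1 : S = T := by
      by_contra hne
      exact not_amenable_of_le (inf_le_inf_left S hst) hy.1 (fam_inter hb hπ S hS T hT hne)
    have e2 : S.map (MulAut.conj g).toMonoidHom = T := by
      by_contra hne
      exact not_amenable_of_le (inf_le_inf_left _ hst) hy.2 (fam_inter hb hπ _ hS' T hT hne)
    exact hne (e1.trans e2.symm)
  · refine gae_mono hμ.nonneg hμ.total (fun y _ => ?_) (gae_true hμ.total)
    by_contra hcon
    push Not at hcon
    obtain ⟨h1, C, h2⟩ := hcon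
    obtain ⟨T, hT, -⟩ := (fam_iff hb _ h1).1 ⟨C, h2⟩
    exact hF ⟨T, hT⟩

/-- almost all stabilizers are nonamenable -/
theorem gae_nonam (hG : ¬ Amenable G) :
    AlmostEvery l μ fun y => ¬ Amenable (MulAction.stabilizer G y) := by
  have h1 : ¬ Amenable (⊤ : Subgroup G) := fun h => hG (amenable_of_inj
    (Subgroup.topEquiv (G := G)).symm.toMonoidHom (MulEquiv.injective _) h)
  refine gae_mono hμ.nonneg hμ.total (fun y hy => ?_) (gae_inf hμ ⊤ h1)
  rwa [top_inf_eq] at hy

end act

end

end Pool.Agent.L7h59.IA
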