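import Pool.Agent.H919R4.ZS.Deriv

/-!
# A group with a finite free resolution is finitely generated
-/

set_option autoImplicit false

namespace Pool.Agent.L7h59.IA

open scoped Matrix
open Pool.Agent.H919R4.ZS (FinRes augm augm_single eps exists_lift eps_smul eps_sub)

noncomputable section

variable {G : Type} [Group G]

/-- the map `ℤ[G] → ℤ[G/H]` -/
def Q (H : Subgroup G) : MonoidAlgebra ℤ G →+ (G ⧸ H →₀ ℤ) where
  toFun a := a.coeff.mapDomain (fun g : G => (g : G ⧸ H))
  map_zero' := by
    rw [MonoidAlgebra.coeff_zero]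
    exact Finsupp.mapDomain_zero
  map_add' a b := by
    rw [MonoidAlgebra.coeff_add]
    exact Finsupp.mapDomain_add

lemma Q_single (H : Subgroup G) (g : G) (r : ℤ) :
    Q H (MonoidAlgebra.single g r) = Finsupp.single (g : G ⧸ H) r := by
  change (MonoidAlgebra.single g r).coeff.mapDomain _ = _
  rw [MonoidAlgebra.coeff_single, Finsupp.mapDomain_single]

/-- elements with support in `H` -/
lemma Q_mul (H : Subgroup G) (c a : MonoidAlgebra ℤ G) (ha : ∀ g ∈ a.coeff.support, g ∈ H) :
    Q H (c * a) = augm G a • Q H c := by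
  have hsum : a = ∑ g ∈ a.coeff.support, MonoidAlgebra.single g (a.coeff g) := by
    apply MonoidAlgebra.coeff_injective
    have h1 : (∑ g ∈ a.coeff.support, MonoidAlgebra.single g (a.coeff g)).coeff =
        ∑ g ∈ a.coeff.support, Finsupp.single g (a.coeff g) := by
      rw [← MonoidAlgebra.coeffAddEquiv_apply, map_sum]
      refine Finset.sum_congr rfl fun g _ => ?_
      rw [MonoidAlgebra.coeffAddEquiv_apply, MonoidAlgebra.coeff_single]
    rw [h1]
    exact (Finsupp.sum_single a.coeff).symm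
  have key : ∀ (g : G) (r : ℤ), g ∈ H → Q H (c * MonoidAlgebra.single g r) = r • Q H c := by
    intro g r hg
    refine MonoidAlgebra.induction_linear c ?_ ?_ ?_
    · rw [zero_mul, map_zero, smul_zero]
    · intro x y hx hy
      rw [add_mul, map_add, hx, hy, map_add, smul_add]
    · intro k s
      rw [MonoidAlgebra.single_mul_single, Q_single, Q_single]
      have h2 : ((k * g : G) : G ⧸ H) = (k : G ⧸ H) := by
        rw [QuotientGroup.eq]
        have : (k * g)⁻¹ * k = g⁻¹ := by group
        rw [this]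
        exact H.inv_mem hg
      rw [h2, Finsupp.smul_single, smul_eq_mul, mul_comm]
  conv_lhs => rw [hsum]
  rw [Finset.mul_sum, map_sum]
  have h3 : augm G a = ∑ g ∈ a.coeff.support, a.coeff g := by
    conv_lhs => rw [hsum]
    rw [map_sum]
    exact Finset.sum_congr rfl fun g _ => augm_single g _
  rw [h3, Finset.sum_smul]
  exact Finset.sum_congr rfl fun g hg => key g _ (ha g hg)

/-- **finite generation** -/
theorem fg (X : FinRes G) : ∃ T : Finset G, Subgroup.closure (T : Set G) = ⊤ := by
  classical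
  obtain ⟨x0, hx0⟩ := X.surj
  set T : Finset G := (Finset.univ.biUnion fun k : Fin (X.n 1) => Finset.univ.biUnion
    fun j : Fin (X.n 0) => (X.d 0 k j).coeff.support) ∪
    (Finset.univ.biUnion fun j : Fin (X.n 0) => (x0 j).coeff.support) with hT
  refine ⟨T, ?_⟩
  set H : Subgroup G := Subgroup.closure (T : Set G) with hH
  have hd : ∀ k j, ∀ g ∈ (X.d 0 k j).coeff.support, g ∈ H := fun k j g hg =>
    Subgroup.subset_closure (Finset.mem_coe.2 (Finset.mem_union_left _ (Finset.mem_biUnion.2
      ⟨k, Finset.mem_univ k, Finset.mem_biUnion.2 ⟨j, Finset.mem_univ j, hg⟩⟩)))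
  have hx : ∀ j, ∀ g ∈ (x0 j).coeff.support, g ∈ H := fun j g hg =>
    Subgroup.subset_closure (Finset.mem_coe.2 (Finset.mem_union_right _ (Finset.mem_biUnion.2
      ⟨j, Finset.mem_univ j, hg⟩)))
  -- the map
  let F : (Fin (X.n 0) → MonoidAlgebra ℤ G) → (G ⧸ H →₀ ℤ) := fun x => ∑ j, X.aug j • Q H (x j)
  have hF1 : ∀ y, F (y ᵥ* X.d 0) = 0 := by
    intro y
    change ∑ j, X.aug j • Q H ((y ᵥ* X.d 0) j) = 0
    have h1 : ∀ j, Q H ((y ᵥ* X.d 0) j) = ∑ k, augm G (X.d 0 k j) • Q H (y k) := by
      intro j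
      change Q H (∑ k, y k * X.d 0 k j) = _
      rw [map_sum]
      exact Finset.sum_congr rfl fun k _ => Q_mul H _ _ (hd k j)
    simp only [h1, Finset.smul_sum, smul_smul]
    rw [Finset.sum_comm]
    refine Finset.sum_eq_zero fun k _ => ?_
    rw [← Finset.sum_smul]
    have h2 : ∑ j, X.aug j * augm G (X.d 0 k j) = 0 := by
      have h3 := (X.exact_zero (X.d 0 k)).2 ⟨Pi.single k 1, by
        rw [Matrix.single_one_vecMul]
        rfl⟩
      rw [← h3]
      exact Finset.sum_congr rfl fun j _ => mul_comm _ _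
    rw [h2, zero_smul]
  rw [eq_top_iff]
  intro g _
  have he : ∑ j, augm G ((MonoidAlgebra.single g (1 : ℤ) • x0 - x0) j) * X.aug j = 0 := by
    have h4 : eps X (MonoidAlgebra.single g (1 : ℤ) • x0 - x0) = 0 := by
      rw [eps_sub, eps_smul, augm_single, one_mul, sub_self]
    exact h4
  obtain ⟨y, hy⟩ := (X.exact_zero _).1 he
  have h5 := hF1 y
  rw [hy] at h5
  have h6 : ∀ a : MonoidAlgebra ℤ G, ∑ j, X.aug j • Q H (a * x0 j) = Q H a := by
    intro a
    have : ∀ j, X.aug j • Q H (a * x0 j) = (augm G (x0 j) * X.aug j) • Q H a := by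
      intro j
      rw [Q_mul H a (x0 j) (hx j), smul_smul, mul_comm]
    rw [Finset.sum_congr rfl fun j _ => this j, ← Finset.sum_smul, hx0, one_smul]
  have h7 : F (MonoidAlgebra.single g (1 : ℤ) • x0 - x0) =
      Q H (MonoidAlgebra.single g (1 : ℤ)) - Q H 1 := by
    change ∑ j, X.aug j • Q H (MonoidAlgebra.single g (1 : ℤ) * x0 j - x0 j) = _
    rw [← h6 (MonoidAlgebra.single g (1 : ℤ)), ← h6 1, ← Finset.sum_sub_distrib]
    refine Finset.sum_congr rfl fun j _ => ?_
    rw [one_mul, map_sub, smul_sub]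
  rw [h7, sub_eq_zero, MonoidAlgebra.one_def, Q_single, Q_single] at h5
  have h8 := Finsupp.single_left_injective (one_ne_zero (α := ℤ)) h5
  have h9 := (QuotientGroup.eq.1 h8)
  rw [mul_one] at h9
  exact (Subgroup.inv_mem_iff H).1 h9

theorem countable (X : FinRes G) : Countable G := by
  obtain ⟨T, hT⟩ := fg X
  have hs : Function.Surjective (FreeGroup.lift (fun x : {x // x ∈ T} => (x : G))) := by
    rw [← MonoidHom.range_eq_top, FreeGroup.range_lift_eq_closure]
    have : Set.range (fun x : {x // x ∈ T} => (x : G)) = (T : Set G) := Subtype.range_coe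
    rw [this]
    exact hT
  exact hs.countable

end

end Pool.Agent.L7h59.IA
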