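import Pool.Agent.L7h59.IA.Net
import Pool.Agent.Q169.PT.TF

/-!
# Conjugation invariant nets in groups with an unbounded tempered cocycle
-/

set_option autoImplicit false

namespace Pool.Agent.L7h59.IA

open Filter Topology
open Pool.Agent.Q169.PT (Rep IsCoc Tempered)
open Pool.Agent.Q169.PT.Pub (Amenable)
open Pool.Agent.L7h76.PT

noncomputable section

/-- For almost every `h₁`, for almost every `h₂`, ..., for almost every `hₙ` the subgroup generated
by `K` and `h₁, ..., hₙ` has the property `P`. -/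
def Generic {G ι : Type} [Group G] (l : Filter ι) (μ : ι → G →₀ ℝ) (P : Subgroup G → Prop) :
    ℕ → Subgroup G → Prop
  | 0, K => P K
  | n + 1, K => AlmostEvery l μ fun h => Generic l μ P n (K ⊔ Subgroup.zpowers h)

/-- The chain condition for centralizers: every descending sequence of centralizers of subsets of
`G` is eventually constant. -/
def ChainCondition (G : Type) [Group G] : Prop :=
  ∀ T : ℕ → Set G, (∀ n, Subgroup.centralizer (T (n + 1)) ≤ Subgroup.centralizer (T n)) →
    ∃ n, ∀ m, n ≤ m → Subgroup.centralizer (T m) = Subgroup.centralizer (T n)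

section net

variable {G ι : Type} [Group G] {l : Filter ι} {μ : ι → G →₀ ℝ} (hμ : ConjInvariantNet l μ)

lemma cent_le (K : Subgroup G) (h : G) :
    Subgroup.centralizer (K : Set G) ⊓ Subgroup.centralizer {h} ≤
      Subgroup.centralizer ((K ⊔ Subgroup.zpowers h : Subgroup G) : Set G) := by
  rintro x ⟨h1, h2⟩
  have h3 : K ⊔ Subgroup.zpowers h ≤ Subgroup.centralizer {x} := by
    refine sup_le (fun y hy => ?_) ?_
    · rw [Subgroup.mem_centralizer_singleton_iff]
      exact Subgroup.mem_centralizer_iff.1 h1 y hy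
    · rw [Subgroup.zpowers_le, Subgroup.mem_centralizer_singleton_iff]
      exact (Subgroup.mem_centralizer_singleton_iff.1 h2).symm
  rw [Subgroup.mem_centralizer_iff]
  intro y hy
  exact Subgroup.mem_centralizer_singleton_iff.1 (h3 hy)

include hμ

/-- the step -/
theorem good_step (K : Subgroup G) (hK : ¬ Amenable (Subgroup.centralizer (K : Set G))) :
    AlmostEvery l μ fun h =>
      ¬ Amenable (Subgroup.centralizer ((K ⊔ Subgroup.zpowers h : Subgroup G) : Set G)) :=
  ae_mono hμ (fun h hh => not_amenable_of_le (cent_le K h) hh) (ae_inf hμ _ hK)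

/-- the members of the family -/
theorem ae_conj_sub (S : Subgroup G) (hS : AlmostEvery l μ fun h => h ∈ S) (g : G) :
    AlmostEvery l μ fun h => h ∈ S.map (MulAut.conj g).toMonoidHom := by
  refine ae_mono hμ (fun h hh => ?_) (ae_conj hμ hS g⁻¹)
  rw [Subgroup.mem_map]
  refine ⟨g⁻¹ * h * g⁻¹⁻¹, hh, ?_⟩
  change g * (g⁻¹ * h * g⁻¹⁻¹) * g⁻¹ = h
  group

/-- **concentration on an amenable subgroup** -/
theorem conc {H : Type} [NormedAddCommGroup H] [InnerProductSpace ℂ H] [CompleteSpace H]
    {π : Rep G H} (hπ : Tempered π) {b : G → H} (hb : IsCoc π b)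
    (hw : ∀ w, ∃ g, b g ≠ π.hom g w - w) (K : Subgroup G) (hK : ¬ Amenable K)
    (hC : ¬ Amenable (Subgroup.centralizer (K : Set G))) :
    ∃ A : Subgroup G, Amenable A ∧ AlmostEvery l μ fun h => h ∈ A := by
  obtain ⟨S, hS, hKS, -⟩ := fam_comm hb hπ K (Subgroup.centralizer (K : Set G)) hK hC
    (fun a ha c hc => Subgroup.mem_centralizer_iff.1 hc a ha)
  have h1 : AlmostEvery l μ fun h => h ∈ S := by
    refine ae_mono hμ (fun h hh => ?_) (good_step hμ K hC)
    obtain ⟨S', hS', hKS', -⟩ := fam_comm hb hπ (K ⊔ Subgroup.zpowers h) _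
      (not_amenable_of_le le_sup_left hK) hh
      (fun a ha c hc => Subgroup.mem_centralizer_iff.1 hc a ha)
    have h2 : S = S' := by
      by_contra hne
      exact not_amenable_of_le (le_inf hKS (le_sup_left.trans hKS')) hK
        (fam_inter hb hπ S hS S' hS' hne)
    rw [h2]
    exact hKS' ((le_sup_right : Subgroup.zpowers h ≤ _) (Subgroup.mem_zpowers h))
  obtain ⟨g, hg⟩ : ∃ g, g ∉ S := by
    by_contra hcon
    push Not at hcon
    exact fam_ne_top hb hw S hS (eq_top_iff.2 fun g _ => hcon g)
  refine ⟨S ⊓ S.map (MulAut.conj g).toMonoidHom, fam_malnormal hb hπ S hS g hg, ?_⟩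
  exact ae_and hμ h1 (ae_conj_sub hμ S h1 g)

/-- **generic subgroups are amenable and have nonamenable centralizers** -/
theorem generic {H : Type} [NormedAddCommGroup H] [InnerProductSpace ℂ H] [CompleteSpace H]
    {π : Rep G H} (hπ : Tempered π) {b : G → H} (hb : IsCoc π b)
    (hw : ∀ w, ∃ g, b g ≠ π.hom g w - w) (hG : ¬ Amenable G) (n : ℕ) :
    Generic l μ (fun K => Amenable K ∧ ¬ Amenable (Subgroup.centralizer (K : Set G))) n ⊥ := by
  have hbot : ¬ Amenable (Subgroup.centralizer ((⊥ : Subgroup G) : Set G)) := by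
    intro hc
    apply hG
    have h1 : Subgroup.centralizer ((⊥ : Subgroup G) : Set G) = ⊤ := by
      rw [eq_top_iff]
      intro x _
      rw [Subgroup.mem_centralizer_iff]
      intro y hy
      rw [Subgroup.mem_bot.1 hy, one_mul, mul_one]
    rw [h1] at hc
    exact amenable_of_inj (Subgroup.topEquiv (G := G)).symm.toMonoidHom (MulEquiv.injective _) hc
  by_cases hI : ∃ K : Subgroup G, ¬ Amenable K ∧ ¬ Amenable (Subgroup.centralizer (K : Set G))
  · obtain ⟨K, hK, hC⟩ := hI
    obtain ⟨A, hA, hAE⟩ := conc hμ hπ hb hw K hK hC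
    have key : ∀ n (K : Subgroup G), K ≤ A → ¬ Amenable (Subgroup.centralizer (K : Set G)) →
        Generic l μ (fun K => Amenable K ∧ ¬ Amenable (Subgroup.centralizer (K : Set G))) n K := by
      intro n
      induction n with
      | zero =>
        intro K hKA hC
        exact ⟨by_contra fun h => not_amenable_of_le hKA h hA, hC⟩
      | succ n ih =>
        intro K hKA hC
        refine ae_mono hμ (fun h hh => ih _ (sup_le hKA ?_) hh.2) (ae_and hμ hAE (good_step hμ K hC))
        rw [Subgroup.zpowers_le]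
        exact hh.1
    exact key n ⊥ bot_le hbot
  · push Not at hI
    have key : ∀ n (K : Subgroup G), ¬ Amenable (Subgroup.centralizer (K : Set G)) →
        Generic l μ (fun K => Amenable K ∧ ¬ Amenable (Subgroup.centralizer (K : Set G))) n K := by
      intro n
      induction n with
      | zero =>
        intro K hC
        exact ⟨by_contra fun h => hC (hI K h), hC⟩
      | succ n ih =>
        intro K hC
        exact ae_mono hμ (fun h hh => ih _ hh) (good_step hμ K hC)
    exact key n ⊥ hbot

end net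

/-! ### the chain condition -/

section chain

variable {G : Type} [Group G]

/-- a minimal centralizer with a given property -/
theorem exists_min (hc : ChainCondition G) (P : Set G → Prop) (hP : ∃ T, P T) :
    ∃ T, P T ∧ ∀ T', P T' → ¬ Subgroup.centralizer T' < Subgroup.centralizer T := by
  by_contra hcon
  push Not at hcon
  obtain ⟨T0, h0⟩ := hP
  choose! f hf1 hf2 using hcon
  let T : ℕ → Set G := fun n => f^[n] T0
  have hT : ∀ n, P (T n) := by
    intro n
    induction n with
    | zero => exact h0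
    | succ n ih =>
      change P (f^[n + 1] T0)
      rw [Function.iterate_succ_apply']
      exact hf1 _ ih
  have hlt : ∀ n, Subgroup.centralizer (T (n + 1)) < Subgroup.centralizer (T n) := by
    intro n
    change Subgroup.centralizer (f^[n + 1] T0) < _
    rw [Function.iterate_succ_apply']
    exact hf2 _ (hT n)
  obtain ⟨n, hn⟩ := hc T fun n => (hlt n).le
  exact (hlt n).ne (hn (n + 1) (Nat.le_succ n))

lemma map_cent (g : G) (T : Set G) :
    (Subgroup.centralizer T).map (MulAut.conj g).toMonoidHom =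
      Subgroup.centralizer ((fun x => g * x * g⁻¹) '' T) := by
  ext x
  rw [Subgroup.mem_map, Subgroup.mem_centralizer_iff]
  constructor
  · rintro ⟨y, hy, rfl⟩ _ ⟨z, hz, rfl⟩
    change g * z * g⁻¹ * (g * y * g⁻¹) = g * y * g⁻¹ * (g * z * g⁻¹)
    have h1 := Subgroup.mem_centralizer_iff.1 hy z hz
    calc g * z * g⁻¹ * (g * y * g⁻¹) = g * (z * y) * g⁻¹ := by group
      _ = g * (y * z) * g⁻¹ := by rw [h1]
      _ = g * y * g⁻¹ * (g * z * g⁻¹) := by group
  · intro h
    refine ⟨g⁻¹ * x * g, ?_, ?_⟩
    · rw [Subgroup.mem_centralizer_iff]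
      intro z hz
      have h1 := h _ ⟨z, hz, rfl⟩
      calc z * (g⁻¹ * x * g) = g⁻¹ * (g * z * g⁻¹ * x) * g := by group
        _ = g⁻¹ * (x * (g * z * g⁻¹)) * g := by rw [h1]
        _ = g⁻¹ * x * g * z := by group
    · change g * (g⁻¹ * x * g) * g⁻¹ = x
      group

/-- `L` is a minimal nonamenable centralizer -/
def MinNA (L : Subgroup G) : Prop :=
  (∃ T : Set G, L = Subgroup.centralizer T) ∧ ¬ Amenable L ∧
    ∀ T : Set G, ¬ Amenable (Subgroup.centralizer T) → ¬ Subgroup.centralizer T < L

lemma MinNA.conj {L : Subgroup G} (hL : MinNA L) (g : G) :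
    MinNA (L.map (MulAut.conj g).toMonoidHom) := by
  obtain ⟨⟨T, rfl⟩, h2, h3⟩ := hL
  refine ⟨⟨_, map_cent g T⟩, amenable_conj g h2, fun T' hT' hlt => ?_⟩
  have e : ((Subgroup.centralizer T').map (MulAut.conj g⁻¹).toMonoidHom) =
      Subgroup.centralizer ((fun x => g⁻¹ * x * g⁻¹⁻¹) '' T') := map_cent g⁻¹ T'
  refine h3 ((fun x => g⁻¹ * x * g⁻¹⁻¹) '' T') ?_ ?_
  · rw [← e]
    exact amenable_conj g⁻¹ hT'
  · rw [← e]
    have e2 : (((Subgroup.centralizer T).map (MulAut.conj g).toMonoidHom).map
        (MulAut.conj g⁻¹).toMonoidHom) = Subgroup.centralizer T := by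
      have : ((MulAut.conj g⁻¹).toMonoidHom).comp (MulAut.conj g).toMonoidHom = MonoidHom.id G := by
        ext x
        change g⁻¹ * (g * x * g⁻¹) * g⁻¹⁻¹ = x
        group
      rw [Subgroup.map_map, this]
      exact Subgroup.map_id _
    rw [← e2]
    exact (Subgroup.map_lt_map_iff_of_injective (MulAut.conj g⁻¹).injective).2 hlt

/-- the normal subgroup: all elements that commute with all minimal nonamenable centralizers -/
def core (G : Type) [Group G] : Subgroup G := Subgroup.centralizer {x | ∃ L : Subgroup G, MinNA L ∧ x ∈ L}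

lemma mem_core (h : G) : h ∈ core G ↔ ∀ L : Subgroup G, MinNA L → ∀ x ∈ L, x * h = h * x := by
  unfold core
  rw [Subgroup.mem_centralizer_iff]
  constructor
  · intro h1 L hL x hx
    exact h1 x ⟨L, hL, hx⟩
  · rintro h1 x ⟨L, hL, hx⟩
    exact h1 L hL x hx

instance core_normal : (core G).Normal := by
  refine ⟨fun h hh g => ?_⟩
  rw [mem_core] at hh ⊢
  intro L hL x hx
  have h1 := hh _ (hL.conj g⁻¹) (g⁻¹ * x * g⁻¹⁻¹) ⟨x, hx, rfl⟩
  calc x * (g * h * g⁻¹) = g * (g⁻¹ * x * g⁻¹⁻¹ * h) * g⁻¹ := by group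
    _ = g * (h * (g⁻¹ * x * g⁻¹⁻¹)) * g⁻¹ := by rw [h1]
    _ = g * h * g⁻¹ * x := by group

lemma exists_minNA (hc : ChainCondition G) (hG : ¬ Amenable G) : ∃ L : Subgroup G, MinNA L := by
  obtain ⟨T, hT, hmin⟩ := exists_min hc (fun T => ¬ Amenable (Subgroup.centralizer T)) ⟨∅, by
    intro h
    apply hG
    have h1 : Subgroup.centralizer (∅ : Set G) = ⊤ := by
      rw [eq_top_iff]
      intro x _
      rw [Subgroup.mem_centralizer_iff]
      intro y hy
      exact absurd hy (Set.notMem_empty y)
    rw [h1] at h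
    exact amenable_of_inj (Subgroup.topEquiv (G := G)).symm.toMonoidHom (MulEquiv.injective _) h⟩
  exact ⟨_, ⟨T, rfl⟩, hT, hmin⟩

lemma le_cent_core {L : Subgroup G} (hL : MinNA L) : L ≤ Subgroup.centralizer (core G : Set G) := by
  intro x hx
  rw [Subgroup.mem_centralizer_iff]
  intro h hh
  exact ((mem_core h).1 hh L hL x hx).symm

lemma cent_core (hc : ChainCondition G) (hG : ¬ Amenable G) :
    ¬ Amenable (Subgroup.centralizer (core G : Set G)) := by
  obtain ⟨L, hL⟩ := exists_minNA hc hG
  exact not_amenable_of_le (le_cent_core hL) hL.2.1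

lemma cent_cent_core :
    Subgroup.centralizer ((Subgroup.centralizer (core G : Set G) : Subgroup G) : Set G) = core G := by
  refine le_antisymm ?_ ?_
  · refine Subgroup.centralizer_le ?_
    rintro x ⟨L, hL, hx⟩
    exact le_cent_core hL hx
  · intro x hx
    rw [Subgroup.mem_centralizer_iff]
    intro y hy
    exact (Subgroup.mem_centralizer_iff.1 hy x hx).symm

/-- the core is amenable -/
theorem core_amenable {H : Type} [NormedAddCommGroup H] [InnerProductSpace ℂ H] [CompleteSpace H]
    {π : Rep G H} (hπ : Tempered π) {b : G → H} (hb : IsCoc π b)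
    (hw : ∀ w, ∃ g, b g ≠ π.hom g w - w) (hc : ChainCondition G) (hG : ¬ Amenable G) :
    Amenable (core G) := by
  by_contra hN
  obtain ⟨S, hS, h1, -⟩ := fam_comm hb hπ (core G) (Subgroup.centralizer (core G : Set G)) hN
    (cent_core hc hG) (fun a ha c hc => Subgroup.mem_centralizer_iff.1 hc a ha)
  apply fam_ne_top hb hw S hS
  rw [eq_top_iff]
  intro g _
  by_contra hg
  refine not_amenable_of_le (le_inf h1 ?_) hN (fam_malnormal hb hπ S hS g hg)
  intro x hx
  rw [Subgroup.mem_map]
  refine ⟨g⁻¹ * x * g, h1 ?_, ?_⟩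
  · have := (core_normal (G := G)).conj_mem x hx g⁻¹
    rwa [inv_inv] at this
  · change g * (g⁻¹ * x * g) * g⁻¹ = x
    group

/-- almost every element lies in the core -/
theorem ae_core {ι : Type} {l : Filter ι} {μ : ι → G →₀ ℝ} (hμ : ConjInvariantNet l μ)
    (hc : ChainCondition G) : AlmostEvery l μ fun h => h ∈ core G := by
  -- each minimal nonamenable centralizer commutes with almost every element
  have h1 : ∀ L : Subgroup G, MinNA L → AlmostEvery l μ fun h => h ∈ Subgroup.centralizer (L : Set G) := by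
    rintro L ⟨⟨T, rfl⟩, hna, hmin⟩
    refine ae_mono hμ (fun h hh => ?_) (ae_inf hμ _ hna)
    have e : Subgroup.centralizer T ⊓ Subgroup.centralizer {h} = Subgroup.centralizer (T ∪ {h}) := by
      ext x
      rw [Subgroup.mem_inf, Subgroup.mem_centralizer_iff, Subgroup.mem_centralizer_iff,
        Subgroup.mem_centralizer_iff]
      constructor
      · rintro ⟨h3, h4⟩ y (hy | hy)
        · exact h3 y hy
        · exact h4 y hy
      · intro h3
        exact ⟨fun y hy => h3 y (Or.inl hy), fun y hy => h3 y (Or.inr hy)⟩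
    rw [e] at hh
    have h2 : Subgroup.centralizer (T ∪ {h}) = Subgroup.centralizer T := by
      by_contra hne
      refine hmin _ hh (lt_of_le_of_ne ?_ hne)
      exact Subgroup.centralizer_le Set.subset_union_left
    rw [Subgroup.mem_centralizer_iff]
    intro x hx
    have hx' : x ∈ Subgroup.centralizer (T ∪ {h}) := by
      rw [h2]
      exact hx
    exact (Subgroup.mem_centralizer_iff.1 hx' h (Or.inr rfl)).symm
  obtain ⟨T, hT, hmin⟩ := exists_min hc (fun T => AlmostEvery l μ fun h => h ∈ Subgroup.centralizer T)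
    ⟨∅, ae_mono hμ (fun h _ => by
      rw [Subgroup.mem_centralizer_iff]
      intro y hy
      exact absurd hy (Set.notMem_empty y)) (ae_true hμ)⟩
  refine ae_mono hμ (fun h hh => ?_) hT
  rw [mem_core]
  intro L hL x hx
  have h2 : AlmostEvery l μ fun h => h ∈ Subgroup.centralizer (T ∪ (L : Set G)) := by
    refine ae_mono hμ (fun h hh => ?_) (ae_and hμ hT (h1 L hL))
    rw [Subgroup.mem_centralizer_iff]
    rintro y (hy | hy)
    · exact Subgroup.mem_centralizer_iff.1 hh.1 y hy
    · exact Subgroup.mem_centralizer_iff.1 hh.2 y hy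
  have h3 : Subgroup.centralizer (T ∪ (L : Set G)) = Subgroup.centralizer T := by
    by_contra hne
    exact hmin _ h2 (lt_of_le_of_ne (Subgroup.centralizer_le Set.subset_union_left) hne)
  rw [← h3] at hh
  exact Subgroup.mem_centralizer_iff.1 hh x (Or.inr hx)

/-- an inner amenable group has a nontrivial core -/
theorem core_ne_bot (hc : ChainCondition G) (hI : InnerAmenable G) : core G ≠ ⊥ := by
  classical
  intro hbot
  have hI' : ∀ p : Finset G × ℕ, ∃ μ : G →₀ ℝ, (∀ h, 0 ≤ μ h) ∧
      mass μ (fun _ => True) = 1 ∧ μ 1 = 0 ∧ ∀ g ∈ p.1, conjDist g μ ≤ 1 / ((p.2 : ℝ) + 1) :=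
    fun p => hI p.1 _ (by positivity)
  choose μ h1 h2 h3 h4 using hI'
  have hμ : ConjInvariantNet (atTop : Filter (Finset G × ℕ)) μ := by
    refine ⟨h1, h2, fun g => ?_⟩
    have ht : Tendsto (fun p : Finset G × ℕ => 1 / ((p.2 : ℝ) + 1)) atTop (𝓝 0) := by
      have h5 : Tendsto (fun p : Finset G × ℕ => p.2) atTop atTop := by
        rw [← prod_atTop_atTop_eq]
        exact tendsto_snd
      exact (tendsto_one_div_add_atTop_nhds_zero_nat (𝕜 := ℝ)).comp h5
    refine squeeze_zero' (Eventually.of_forall fun p => conjDist_nonneg g (μ p)) ?_ ht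
    filter_upwards [eventually_ge_atTop (({g}, 0) : Finset G × ℕ)] with p hp
    exact h4 p g (hp.1 (Finset.mem_singleton_self g))
  have h6 := ae_core hμ hc
  unfold AlmostEvery at h6
  have h7 : ∀ p, mass (μ p) (fun h => h ∈ core G) = 0 := by
    intro p
    rw [mass_eq (μ p) _ (μ p).support subset_rfl]
    refine Finset.sum_eq_zero fun h _ => ?_
    split_ifs with hh
    · rw [hbot, Subgroup.mem_bot] at hh
      rw [hh]
      exact h3 p
    · rfl
  simp only [h7] at h6
  exact zero_ne_one (tendsto_nhds_unique tendsto_const_nhds h6)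

end chain

end

end Pool.Agent.L7h59.IA
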