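import Pool.Agent.L7h59.IA.Act

/-!
# Asymptotically conjugation invariant nets of probability measures
-/

set_option autoImplicit false

namespace Pool.Agent.L7h59.IA

open Filter Topology
open Pool.Agent.Q169.PT.Pub (Amenable)
open Pool.Agent.L7h76.PT

noncomputable section

open Classical in
/-- The mass `μ(P) = ∑ μ(h)` over the `h` with `P h`. -/
def mass {G : Type} (μ : G →₀ ℝ) (P : G → Prop) : ℝ := μ.sum fun h a => if P h then a else 0

/-- The `ℓ¹`-distance `∑_h |μ(g h g⁻¹) - μ(h)|` of `μ` and a conjugate of `μ`. -/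
def conjDist {G : Type} [Group G] (g : G) (μ : G →₀ ℝ) : ℝ := ∑ᶠ h, |μ (g * h * g⁻¹) - μ h|

/-- A net of finitely supported probability measures on `G` that is asymptotically invariant under
conjugation: `∑_h |μ(g h g⁻¹) - μ(h)|` tends to zero for every `g`. -/
structure ConjInvariantNet {G ι : Type} [Group G] (l : Filter ι) (μ : ι → G →₀ ℝ) : Prop where
  nonneg : ∀ i h, 0 ≤ μ i h
  total : ∀ i, mass (μ i) (fun _ => True) = 1
  inv : ∀ g, Tendsto (fun i => conjDist g (μ i)) l (𝓝 0)

/-- Almost every `h` has the property `P`: the mass of the set of these `h` tends to one. -/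
def AlmostEvery {G ι : Type} (l : Filter ι) (μ : ι → G →₀ ℝ) (P : G → Prop) : Prop :=
  Tendsto (fun i => mass (μ i) P) l (𝓝 1)

/-- `G` is inner amenable: for every finite set `S` and `ε > 0` there is a finitely supported
probability measure `μ` on `G` with `μ(1) = 0` and `∑_h |μ(g h g⁻¹) - μ(h)| ≤ ε` for `g ∈ S`. -/
def InnerAmenable (G : Type) [Group G] : Prop :=
  ∀ (S : Finset G) (ε : ℝ), 0 < ε → ∃ μ : G →₀ ℝ, (∀ h, 0 ≤ μ h) ∧
    mass μ (fun _ => True) = 1 ∧ μ 1 = 0 ∧ ∀ g ∈ S, conjDist g μ ≤ ε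

section basic

variable {G : Type}

lemma mass_eq (μ : G →₀ ℝ) (P : G → Prop) [DecidablePred P] (T : Finset G) (hT : μ.support ⊆ T) :
    mass μ P = ∑ h ∈ T, if P h then μ h else 0 := by
  classical
  unfold mass Finsupp.sum
  rw [← Finset.sum_subset hT (fun h _ hh => by
    rw [Finsupp.notMem_support_iff.1 hh]
    split_ifs <;> rfl)]
  refine Finset.sum_congr rfl fun h _ => ?_
  by_cases hP : P h <;> simp [hP]

lemma mass_nonneg {μ : G →₀ ℝ} (hμ : ∀ h, 0 ≤ μ h) (P : G → Prop) : 0 ≤ mass μ P := by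
  classical
  rw [mass_eq μ P μ.support subset_rfl]
  refine Finset.sum_nonneg fun h _ => ?_
  split_ifs
  · exact hμ h
  · exact le_rfl

lemma mass_mono {μ : G →₀ ℝ} (hμ : ∀ h, 0 ≤ μ h) {P Q : G → Prop} (h : ∀ x, P x → Q x) :
    mass μ P ≤ mass μ Q := by
  classical
  rw [mass_eq μ P μ.support subset_rfl, mass_eq μ Q μ.support subset_rfl]
  refine Finset.sum_le_sum fun x _ => ?_
  by_cases hx : P x
  · rw [if_pos hx, if_pos (h x hx)]
  · rw [if_neg hx]
    split_ifs
    · exact hμ x
    · exact le_rfl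

lemma mass_compl (μ : G →₀ ℝ) (P : G → Prop) :
    mass μ P + mass μ (fun x => ¬ P x) = mass μ (fun _ => True) := by
  classical
  rw [mass_eq μ P μ.support subset_rfl, mass_eq μ (fun x => ¬ P x) μ.support subset_rfl,
    mass_eq μ (fun _ => True) μ.support subset_rfl, ← Finset.sum_add_distrib]
  refine Finset.sum_congr rfl fun x _ => ?_
  by_cases hx : P x
  · rw [if_pos hx, if_neg (not_not.2 hx), if_pos trivial, add_zero]
  · rw [if_neg hx, if_pos hx, if_pos trivial, zero_add]

lemma mass_or {μ : G →₀ ℝ} (hμ : ∀ h, 0 ≤ μ h) (P Q : G → Prop) :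
    mass μ (fun x => P x ∨ Q x) ≤ mass μ P + mass μ Q := by
  classical
  rw [mass_eq μ P μ.support subset_rfl, mass_eq μ Q μ.support subset_rfl,
    mass_eq μ (fun x => P x ∨ Q x) μ.support subset_rfl, ← Finset.sum_add_distrib]
  refine Finset.sum_le_sum fun x _ => ?_
  have := hμ x
  by_cases hx : P x <;> by_cases hy : Q x <;> simp [hx, hy, this]

end basic

section conj

variable {G : Type} [Group G]

lemma conj_inj (g : G) : Function.Injective fun h : G => g * h * g⁻¹ := by
  intro a b h
  have := mul_right_cancel h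
  exact mul_left_cancel this

lemma conjDist_eq (g : G) (μ : G →₀ ℝ) (T : Finset G)
    (hT : ∀ h, h ∉ T → μ (g * h * g⁻¹) = μ h) :
    conjDist g μ = ∑ h ∈ T, |μ (g * h * g⁻¹) - μ h| := by
  unfold conjDist
  refine finsum_eq_sum_of_support_subset _ fun h hh => ?_
  by_contra hcon
  apply hh
  change |μ (g * h * g⁻¹) - μ h| = 0
  rw [hT h hcon, sub_self, abs_zero]

lemma conjDist_big (g : G) (μ : G →₀ ℝ) : ∃ T0 : Finset G, ∀ T, T0 ⊆ T →
    conjDist g μ = ∑ h ∈ T, |μ (g * h * g⁻¹) - μ h| := by
  classical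
  refine ⟨μ.support ∪ μ.support.image fun h => g⁻¹ * h * g⁻¹⁻¹, fun T hT => conjDist_eq g μ T ?_⟩
  intro h hh
  have h1 : h ∉ μ.support := fun h1 => hh (hT (Finset.mem_union_left _ h1))
  have h2 : g * h * g⁻¹ ∉ μ.support := fun h2 => hh (hT (Finset.mem_union_right _
    (Finset.mem_image.2 ⟨_, h2, by group⟩)))
  rw [Finsupp.notMem_support_iff.1 h1, Finsupp.notMem_support_iff.1 h2]

lemma conjDist_ge (g : G) (μ : G →₀ ℝ) (T : Finset G) :
    ∑ h ∈ T, |μ (g * h * g⁻¹) - μ h| ≤ conjDist g μ := by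
  classical
  obtain ⟨T0, h0⟩ := conjDist_big g μ
  rw [h0 (T0 ∪ T) Finset.subset_union_left]
  exact Finset.sum_le_sum_of_subset_of_nonneg Finset.subset_union_right fun _ _ _ => abs_nonneg _

lemma conjDist_nonneg (g : G) (μ : G →₀ ℝ) : 0 ≤ conjDist g μ := by
  have := conjDist_ge g μ ∅
  rwa [Finset.sum_empty] at this

lemma conj_diff (g : G) (μ : G →₀ ℝ) (P : G → Prop) :
    |mass μ (fun h => P (g * h * g⁻¹)) - mass μ P| ≤ conjDist g⁻¹ μ := by
  classical
  set T : Finset G := μ.support ∪ μ.support.image fun h => g * h * g⁻¹ with hT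
  have h1 : mass μ (fun h => P (g * h * g⁻¹)) = ∑ k ∈ T, if P k then μ (g⁻¹ * k * g⁻¹⁻¹) else 0 := by
    rw [mass_eq μ _ μ.support subset_rfl]
    rw [← Finset.sum_subset (s₁ := μ.support.image fun h => g * h * g⁻¹)
      Finset.subset_union_right (fun k _ hk => by
        have h2 : g⁻¹ * k * g⁻¹⁻¹ ∉ μ.support := fun h2 => hk
          (Finset.mem_image.2 ⟨_, h2, by group⟩)
        rw [Finsupp.notMem_support_iff.1 h2]
        split_ifs <;> rfl)]
    rw [Finset.sum_image fun a _ b _ h => conj_inj g h]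
    refine Finset.sum_congr rfl fun h _ => ?_
    have h3 : g⁻¹ * (g * h * g⁻¹) * g⁻¹⁻¹ = h := by group
    rw [h3]
  rw [h1, mass_eq μ P T Finset.subset_union_left, ← Finset.sum_sub_distrib]
  refine (Finset.abs_sum_le_sum_abs _ _).trans ((Finset.sum_le_sum fun k _ => ?_).trans
    (conjDist_ge g⁻¹ μ T))
  split_ifs
  · exact le_rfl
  · rw [sub_self, abs_zero]
    exact abs_nonneg _

end conj

section net

variable {G ι : Type} [Group G] {l : Filter ι} {μ : ι → G →₀ ℝ} (hμ : ConjInvariantNet l μ)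

include hμ

lemma ae_iff (P : G → Prop) :
    AlmostEvery l μ P ↔ Tendsto (fun i => mass (μ i) fun x => ¬ P x) l (𝓝 0) := by
  have h1 : ∀ i, mass (μ i) P = 1 - mass (μ i) fun x => ¬ P x := fun i => by
    rw [← hμ.total i, ← mass_compl (μ i) P]
    ring
  have h2 : ∀ i, (mass (μ i) fun x => ¬ P x) = 1 - mass (μ i) P := fun i => by
    rw [h1 i]
    ring
  constructor
  · intro h
    have := (tendsto_const_nhds (x := (1 : ℝ))).sub h
    rw [sub_self] at this
    exact this.congr fun i => (h2 i).symm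
  · intro h
    have := (tendsto_const_nhds (x := (1 : ℝ))).sub h
    rw [sub_zero] at this
    exact this.congr fun i => (h1 i).symm

lemma ae_mono {P Q : G → Prop} (h : ∀ x, P x → Q x) (hP : AlmostEvery l μ P) :
    AlmostEvery l μ Q := by
  rw [ae_iff hμ] at hP ⊢
  exact squeeze_zero (fun i => mass_nonneg (hμ.nonneg i) _)
    (fun i => mass_mono (hμ.nonneg i) fun x hx hxP => hx (h x hxP)) hP

lemma ae_and {P Q : G → Prop} (hP : AlmostEvery l μ P) (hQ : AlmostEvery l μ Q) :
    AlmostEvery l μ fun x => P x ∧ Q x := by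
  rw [ae_iff hμ] at hP hQ ⊢
  have h := hP.add hQ
  rw [add_zero] at h
  refine squeeze_zero (fun i => mass_nonneg (hμ.nonneg i) _) (fun i => ?_) h
  refine le_trans (mass_mono (hμ.nonneg i) fun x hx => ?_) (mass_or (hμ.nonneg i) _ _)
  by_cases hxP : P x
  · exact Or.inr fun hxQ => hx ⟨hxP, hxQ⟩
  · exact Or.inl hxP

lemma ae_true : AlmostEvery l μ fun _ => True := by
  unfold AlmostEvery
  simp only [hμ.total]
  exact tendsto_const_nhds

lemma ae_conj {P : G → Prop} (hP : AlmostEvery l μ P) (g : G) :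
    AlmostEvery l μ fun h => P (g * h * g⁻¹) := by
  unfold AlmostEvery at hP ⊢
  have h1 : Tendsto (fun i => mass (μ i) (fun h => P (g * h * g⁻¹)) - mass (μ i) P) l (𝓝 0) :=
    squeeze_zero_norm (fun i => by
      rw [Real.norm_eq_abs]
      exact conj_diff g (μ i) P) (hμ.inv g⁻¹)
  have h2 := h1.add hP
  rw [zero_add] at h2
  exact h2.congr fun i => by ring

/-- the action of `L` on `G` by conjugation -/
def cact (L : Subgroup G) : L →* Equiv.Perm G :=
  (MulAut.toPerm G).comp (MulAut.conj.comp L.subtype)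

omit hμ in
lemma cact_apply (L : Subgroup G) (s : L) (h : G) : cact L s h = s * h * (s : G)⁻¹ := rfl

omit hμ in
lemma mem_stab (L : Subgroup G) (s : L) (h : G) : s ∈ stab (cact L) h ↔ (s : G) * h = h * s := by
  change (s : G) * h * (s : G)⁻¹ = h ↔ _
  exact mul_inv_eq_iff_eq_mul

omit hμ in
lemma stab_act (L : Subgroup G) (s : L) (h : G) (ha : Amenable (stab (cact L) h)) :
    Amenable (stab (cact L) (cact L s h)) := by
  have hmem : ∀ x : stab (cact L) (cact L s h), s⁻¹ * (x : L) * s ∈ stab (cact L) h := by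
    rintro ⟨x, hx⟩
    rw [mem_stab, cact_apply] at hx
    rw [mem_stab]
    push_cast
    have h1 : (x : G) * (s * h * (s : G)⁻¹) * s = (s * h * (s : G)⁻¹) * x * s := by rw [hx]
    have h2 : (x : G) * (s * h) = s * h * ((s : G)⁻¹ * x * s) := by
      have e1 : (x : G) * (s * h * (s : G)⁻¹) * s = x * (s * h) := by group
      have e2 : ((s : G) * h * (s : G)⁻¹) * x * s = s * h * ((s : G)⁻¹ * x * s) := by group
      rw [← e1, h1, e2]
    calc (s : G)⁻¹ * x * s * h = (s : G)⁻¹ * (x * (s * h)) := by group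
      _ = (s : G)⁻¹ * (s * h * ((s : G)⁻¹ * x * s)) := by rw [h2]
      _ = h * ((s : G)⁻¹ * x * s) := by group
  let φ : stab (cact L) (cact L s h) →* stab (cact L) h :=
    { toFun := fun x => ⟨s⁻¹ * (x : L) * s, hmem x⟩
      map_one' := by
        apply Subtype.ext
        change s⁻¹ * ((1 : stab (cact L) (cact L s h)) : L) * s = 1
        rw [OneMemClass.coe_one]
        group
      map_mul' := fun x y => by
        apply Subtype.ext
        change s⁻¹ * ((x * y : stab (cact L) (cact L s h)) : L) * s =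
          (s⁻¹ * (x : L) * s) * (s⁻¹ * (y : L) * s)
        rw [MulMemClass.coe_mul]
        group }
  refine amenable_of_inj φ (fun x y hxy => ?_) ha
  have h1 : s⁻¹ * (x : L) * s = s⁻¹ * (y : L) * s := congrArg Subtype.val hxy
  exact Subtype.ext (mul_left_cancel (mul_right_cancel h1))

/-- **Almost every element commutes with a nonamenable subgroup of a given nonamenable subgroup.** -/
theorem ae_stab (L : Subgroup G) (hL : ¬ Amenable L) :
    AlmostEvery l μ fun h => ¬ Amenable (stab (cact L) h) := by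
  classical
  rw [ae_iff hμ]
  simp only [not_not]
  by_contra hcon
  apply hL
  rw [Metric.tendsto_nhds] at hcon
  push Not at hcon
  obtain ⟨c, hc, hfr⟩ := hcon
  have hfr' : ∃ᶠ i in l, c ≤ mass (μ i) fun h => Amenable (stab (cact L) h) := by
    refine hfr.mono fun i hi => ?_
    rw [Real.dist_eq, sub_zero, abs_of_nonneg (mass_nonneg (hμ.nonneg i) _)] at hi
    exact hi
  refine amenable_of_sets (cact L) fun S ε hε => ?_
  have hev : ∀ᶠ i in l, ∀ s ∈ S, conjDist (s : G) (μ i) < ε * c / (S.card + 1) := by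
    rw [Filter.eventually_all_finset]
    intro s _
    exact (hμ.inv s).eventually_lt_const (by positivity)
  obtain ⟨i, hi, hev⟩ := (hfr'.and_eventually hev).exists
  set B : G → Prop := fun h => Amenable (stab (cact L) h) with hB
  set u : G → ℝ := fun x => if B x then μ i x else 0 with hu
  have hu0 : ∀ x, 0 ≤ u x := fun x => by
    simp only [hu]
    split_ifs
    · exact hμ.nonneg i x
    · exact le_rfl
  have hsum : ∑ x ∈ (μ i).support, u x = mass (μ i) B := (mass_eq (μ i) B _ subset_rfl).symm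
  obtain ⟨F, hF, -, hpos, hb⟩ := layer (cact L) u hu0 (μ i).support (fun x hx => by
    simp only [hu]
    rw [Finsupp.notMem_support_iff.1 hx]
    split_ifs <;> rfl) S ε (by
    have h1 : ∀ s ∈ S, ∑ x ∈ (μ i).support, max (u x - u (cact L s x)) 0 ≤
        ε * c / (S.card + 1) := by
      intro s hs
      refine le_trans (Finset.sum_le_sum fun x _ => ?_)
        ((conjDist_ge (s : G) (μ i) (μ i).support).trans (hev s hs).le)
      by_cases hx : B x
      · have hx' : B (cact L s x) := stab_act L s x hx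
        simp only [hu]
        rw [if_pos hx, if_pos hx', cact_apply]
        refine max_le ?_ (abs_nonneg _)
        rw [abs_sub_comm]
        exact le_abs_self _
      · simp only [hu]
        rw [if_neg hx]
        refine max_le ?_ (abs_nonneg _)
        have := hu0 (cact L s x)
        simp only [hu] at this
        have h2 := abs_nonneg ((μ i) (s * x * (s : G)⁻¹) - (μ i) x)
        linarith
    refine (Finset.sum_le_sum h1).trans_lt ?_
    rw [Finset.sum_const, nsmul_eq_mul, hsum]
    have h2 : (S.card : ℝ) * (ε * c / (S.card + 1)) = (S.card / (S.card + 1)) * (ε * c) := by ring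
    rw [h2]
    calc (S.card : ℝ) / (S.card + 1) * (ε * c) < 1 * (ε * c) := by
          apply mul_lt_mul_of_pos_right _ (by positivity)
          rw [div_lt_one (by positivity)]
          linarith
      _ = ε * c := one_mul _
      _ ≤ ε * mass (μ i) B := mul_le_mul_of_nonneg_left hi hε.le)
  refine ⟨F, hF, fun x hx => ?_, hb⟩
  by_contra hx'
  have h1 := hpos x hx
  simp only [hu] at h1
  rw [if_neg hx'] at h1
  exact lt_irrefl _ h1

/-- for a nonamenable `L`: almost every `h` has nonamenable centralizer in `L` -/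
theorem ae_inf (L : Subgroup G) (hL : ¬ Amenable L) :
    AlmostEvery l μ fun h => ¬ Amenable ↥(L ⊓ Subgroup.centralizer {h}) := by
  refine ae_mono hμ (fun h hh hc => hh ?_) (ae_stab hμ L hL)
  have hmem : ∀ x : stab (cact L) h, ((x : L) : G) ∈ L ⊓ Subgroup.centralizer {h} := by
    rintro ⟨x, hx⟩
    rw [mem_stab] at hx
    refine ⟨x.2, ?_⟩
    change (x : G) ∈ Subgroup.centralizer {h}
    rw [Subgroup.mem_centralizer_singleton_iff]
    exact hx
  let φ : stab (cact L) h →* ↥(L ⊓ Subgroup.centralizer {h}) :=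
    { toFun := fun x => ⟨((x : L) : G), hmem x⟩
      map_one' := rfl
      map_mul' := fun _ _ => rfl }
  refine amenable_of_inj φ (fun x y hxy => ?_) hc
  have h1 := congrArg (fun z : ↥(L ⊓ Subgroup.centralizer {h}) => (z : G)) hxy
  exact Subtype.ext (Subtype.ext h1)

end net

end

end Pool.Agent.L7h59.IA
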