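import Pool.Agent.L7h76.PT.Fam

/-!
# Stabilizers of stationary actions
-/

set_option autoImplicit false

namespace Pool.Agent.L7h59.IA

open MeasureTheory
open scoped ENNReal
open Pool.Agent.Q169.PT (Rep IsCoc Tempered)
open Pool.Agent.Q169.PT.Pub (Amenable)
open Pool.Agent.L7h76.PT

noncomputable section

variable {G : Type} [Group G]

/-- a nonamenable subgroup contains a finitely generated nonamenable subgroup -/
theorem exists_fg_sub (K : Subgroup G) (hK : ¬ Amenable K) :
    ∃ T : Finset G, (∀ t ∈ T, t ∈ K) ∧ ¬ Amenable (Subgroup.closure (T : Set G)) := by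
  classical
  by_contra hcon
  push Not at hcon
  apply hK
  intro S ε hε
  let T : Finset G := S.image (fun s : K => (s : G))
  have hTK : ∀ t ∈ T, t ∈ K := by
    intro t ht
    obtain ⟨s, -, rfl⟩ := Finset.mem_image.1 ht
    exact s.2
  have hle : Subgroup.closure (T : Set G) ≤ K := (Subgroup.closure_le K).2 fun t ht => hTK t ht
  have hmem : ∀ s : K, s ∈ S → (s : G) ∈ Subgroup.closure (T : Set G) := fun s hs =>
    Subgroup.subset_closure (Finset.mem_coe.2 (Finset.mem_image.2 ⟨s, hs, rfl⟩))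
  obtain ⟨F, hF, hb⟩ := hcon T hTK
    (S.attach.image fun s : {x // x ∈ S} => ⟨((s : K) : G), hmem s.1 s.2⟩) ε hε
  let j : Subgroup.closure (T : Set G) → K := Subgroup.inclusion hle
  have hj : Function.Injective j := Subgroup.inclusion_injective hle
  refine ⟨F.image j, hF.image j, fun s hs => ?_⟩
  have h1 := hb ⟨(s : G), hmem s hs⟩ (Finset.mem_image.2 ⟨⟨s, hs⟩, Finset.mem_attach _ _, rfl⟩)
  rw [Finset.card_image_of_injective F hj]
  have h2 : {x | x ∈ F.image j ∧ s * x ∉ F.image j} =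
      j '' {x | x ∈ F ∧ (⟨(s : G), hmem s hs⟩ : Subgroup.closure (T : Set G)) * x ∉ F} := by
    ext x
    constructor
    · rintro ⟨hx, hsx⟩
      obtain ⟨y, hy, rfl⟩ := Finset.mem_image.1 hx
      exact ⟨y, ⟨hy, fun h => hsx (Finset.mem_image.2 ⟨_, h, rfl⟩)⟩, rfl⟩
    · rintro ⟨y, ⟨hy, hsy⟩, rfl⟩
      refine ⟨Finset.mem_image_of_mem _ hy, fun h => ?_⟩
      obtain ⟨z, hz, he⟩ := Finset.mem_image.1 h
      have : z = (⟨(s : G), hmem s hs⟩ : Subgroup.closure (T : Set G)) * y :=
        hj (he.trans rfl)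
      rw [this] at hz
      exact hsy hz
  rw [h2, Set.ncard_image_of_injective _ hj]
  exact h1

lemma map_conj_mul (S : Subgroup G) (a c : G) :
    (S.map (MulAut.conj a).toMonoidHom).map (MulAut.conj c).toMonoidHom =
      S.map (MulAut.conj (c * a)).toMonoidHom := by
  rw [Subgroup.map_map]
  congr 1
  ext x
  change c * (a * x * a⁻¹) * c⁻¹ = c * a * x * (c * a)⁻¹
  group

lemma map_conj_one (S : Subgroup G) : S.map (MulAut.conj (1 : G)).toMonoidHom = S := by
  have : (MulAut.conj (1 : G)).toMonoidHom = MonoidHom.id G := by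
    ext x
    change 1 * x * 1⁻¹ = x
    group
  rw [this, Subgroup.map_id]

section fam

variable {H : Type} [NormedAddCommGroup H] [InnerProductSpace ℂ H]
  {π : Rep G H} {b : G → H} (hb : IsCoc π b)

include hb

lemma conj_eq (hπ : Tempered π) (S : Subgroup G) (hS : S ∈ Fam hb) (a c : G)
    (h : S.map (MulAut.conj a).toMonoidHom = S.map (MulAut.conj c).toMonoidHom) : c⁻¹ * a ∈ S := by
  by_contra hg
  have h1 := fam_malnormal hb hπ S hS _ hg
  rw [← map_conj_mul, h, map_conj_mul, inv_mul_cancel, map_conj_one, inf_idem] at h1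
  exact hS.1 h1

end fam

section act

variable {Y : Type} [MulAction G Y]

/-- the points with nonamenable subgroup contained in `S` -/
def Bad (K : Y → Subgroup G) (S : Subgroup G) : Set Y := {y | ¬ Amenable (K y) ∧ K y ≤ S}

lemma bad_smul {K : Y → Subgroup G}
    (hK : ∀ g y, K (g • y) = (K y).map (MulAut.conj g).toMonoidHom) (S : Subgroup G) (g : G) :
    {y : Y | g • y ∈ Bad K S} = Bad K (S.map (MulAut.conj g⁻¹).toMonoidHom) := by
  ext y
  change (¬ Amenable (K (g • y)) ∧ K (g • y) ≤ S) ↔ (¬ Amenable (K y) ∧ K y ≤ _)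
  rw [hK]
  have e : ∀ K : Subgroup G, (K.map (MulAut.conj g).toMonoidHom).map (MulAut.conj g⁻¹).toMonoidHom =
      K := fun K => by rw [map_conj_mul, inv_mul_cancel, map_conj_one]
  have e' : ∀ K : Subgroup G, (K.map (MulAut.conj g⁻¹).toMonoidHom).map (MulAut.conj g).toMonoidHom =
      K := fun K => by rw [map_conj_mul, mul_inv_cancel, map_conj_one]
  constructor
  · rintro ⟨h1, h2⟩
    refine ⟨?_, ?_⟩
    · have := amenable_conj g⁻¹ h1
      rwa [e] at this
    · have := Subgroup.map_mono (f := (MulAut.conj g⁻¹).toMonoidHom) h2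
      rwa [e] at this
  · rintro ⟨h1, h2⟩
    refine ⟨amenable_conj g h1, ?_⟩
    have := Subgroup.map_mono (f := (MulAut.conj g).toMonoidHom) h2
    rwa [e'] at this

lemma measurable_bad [MeasurableSpace Y] [Countable G] {K : Y → Subgroup G}
    (hfix : ∀ g : G, MeasurableSet {y : Y | g ∈ K y}) (S : Subgroup G) :
    MeasurableSet (Bad K S) := by
  classical
  have e : Bad K S = (⋃ T : Finset G, ⋃ (_ : ¬ Amenable (Subgroup.closure (T : Set G))),
      ⋂ t ∈ T, {y : Y | t ∈ K y}) ∩ ⋂ g : G, ⋂ (_ : g ∉ S), {y : Y | g ∈ K y}ᶜ := by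
    ext y
    simp only [Set.mem_inter_iff, Set.mem_iUnion, Set.mem_iInter]
    constructor
    · rintro ⟨h1, h2⟩
      obtain ⟨T, hT, hna⟩ := exists_fg_sub _ h1
      exact ⟨⟨T, hna, fun t ht => hT t ht⟩, fun g hg h => hg (h2 h)⟩
    · rintro ⟨⟨T, hna, hT⟩, h2⟩
      refine ⟨not_amenable_of_le ((Subgroup.closure_le _).2 fun t ht => hT t ht) hna, ?_⟩
      intro g hg
      by_contra hgS
      exact h2 g hgS hg
  rw [e]
  refine MeasurableSet.inter (MeasurableSet.iUnion fun T => MeasurableSet.iUnion fun _ =>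
    Finset.measurableSet_biInter T fun t _ => hfix t) (MeasurableSet.iInter fun g =>
      MeasurableSet.iInter fun _ => (hfix g).compl)

/-- **Almost all stabilizers of a stationary action are amenable, or the cocycle is unbounded on
them.** -/
theorem stat_main {H : Type} [NormedAddCommGroup H] [InnerProductSpace ℂ H] [CompleteSpace H]
    {π : Rep G H} (hπ : Tempered π) {b : G → H} (hb : IsCoc π b)
    (hw : ∀ w, ∃ g, b g ≠ π.hom g w - w) [Countable G] [MeasurableSpace Y] (ν : Measure Y)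
    [IsProbabilityMeasure ν] (p : G → ℝ≥0∞) (hp : ∑' g, p g = 1)
    (hgen : Submonoid.closure {g | p g ≠ 0} = ⊤)
    (K : Y → Subgroup G) (hK : ∀ g y, K (g • y) = (K y).map (MulAut.conj g).toMonoidHom)
    (hfix : ∀ g : G, MeasurableSet {y : Y | g ∈ K y})
    (hst : ∀ A : Set Y, MeasurableSet A → ν A = ∑' g, p g * ν {y | g • y ∈ A}) :
    ∀ᵐ y ∂ν, Amenable (K y) ∨ ∀ C : ℝ, ∃ g ∈ K y, C < ‖b g‖ := by
  classical
  rw [ae_iff]
  by_contra hE
  set E : Set Y := {y | ¬ (Amenable (K y) ∨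
      ∀ C : ℝ, ∃ g ∈ K y, C < ‖b g‖)} with hEdef
  have hEprop : ∀ y ∈ E, ¬ Amenable (K y) ∧
      ∃ S ∈ Fam hb, K y ≤ S := by
    intro y hy
    have hy' : ¬ (Amenable (K y) ∨
      ∀ C : ℝ, ∃ g ∈ K y, C < ‖b g‖) := hy
    push Not at hy'
    obtain ⟨h1, C, h2⟩ := hy'
    exact ⟨h1, (fam_iff hb _ h1).1 ⟨C, h2⟩⟩
  -- a member of the family with positive mass
  have hpos : ∃ S ∈ Fam hb, ν (Bad K S) ≠ 0 := by
    by_contra hcon
    push Not at hcon
    apply hE
    have hsub : E ⊆ ⋃ T : Finset G, {y | y ∈ E ∧ (∀ t ∈ T, t ∈ K y) ∧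
        ¬ Amenable (Subgroup.closure (T : Set G))} := by
      intro y hy
      obtain ⟨T, hT, hna⟩ := exists_fg_sub _ (hEprop y hy).1
      exact Set.mem_iUnion.2 ⟨T, hy, fun t ht => hT t ht, hna⟩
    refine measure_mono_null hsub (measure_iUnion_null fun T => ?_)
    by_cases hne : {y | y ∈ E ∧ (∀ t ∈ T, t ∈ K y) ∧
        ¬ Amenable (Subgroup.closure (T : Set G))}.Nonempty
    · obtain ⟨y0, hy0, hT0, hna⟩ := hne
      obtain ⟨S, hS, hle⟩ := (hEprop y0 hy0).2
      refine measure_mono_null ?_ (hcon S hS)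
      rintro y ⟨hy, hT, -⟩
      obtain ⟨S', hS', hle'⟩ := (hEprop y hy).2
      have h1 : Subgroup.closure (T : Set G) ≤ S :=
        ((Subgroup.closure_le _).2 fun t ht => hT0 t ht).trans hle
      have h2 : Subgroup.closure (T : Set G) ≤ S' :=
        ((Subgroup.closure_le _).2 fun t ht => hT t ht).trans hle'
      have h3 : S = S' := by
        by_contra hne
        exact not_amenable_of_le (le_inf h1 h2) hna (fam_inter hb hπ S hS S' hS' hne)
      exact ⟨(hEprop y hy).1, h3 ▸ hle'⟩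
    · rw [Set.not_nonempty_iff_eq_empty.1 hne]
      exact measure_empty
  obtain ⟨S0, hS0, h0⟩ := hpos
  -- finiteness
  have hfin : ∀ ε : ℝ≥0∞, 0 < ε → {S : Fam hb | ε ≤ ν (Bad K (S : Subgroup G))}.Finite := by
    intro ε hε
    refine Measure.finite_const_le_meas_of_disjoint_iUnion ν hε
      (fun S => measurable_bad hfix (S : Subgroup G)) ?_ (measure_ne_top ν _)
    intro S S' hne
    refine Set.disjoint_left.2 ?_
    rintro y ⟨h1, h2⟩ ⟨-, h3⟩
    exact not_amenable_of_le (le_inf h2 h3) h1 (fam_inter hb hπ S S.2 S' S'.2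
      fun h => hne (Subtype.ext h))
  obtain ⟨S1, hS1, hmax⟩ := Set.exists_max_image {S : Fam hb | ν (Bad K S0) ≤
    ν (Bad K (S : Subgroup G))} (fun S => ν (Bad K (S : Subgroup G)))
    (hfin _ (pos_iff_ne_zero.2 h0)) ⟨⟨S0, hS0⟩, show ν (Bad K S0) ≤ ν (Bad K S0) from le_rfl⟩
  set M : ℝ≥0∞ := ν (Bad K (S1 : Subgroup G)) with hM
  have hM0 : 0 < M := (pos_iff_ne_zero.2 h0).trans_le hS1
  have hMtop : M ≠ ∞ := measure_ne_top ν _
  have hmax' : ∀ S ∈ Fam hb, ν (Bad K S) ≤ M := by
    intro S hS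
    by_cases h : ν (Bad K S0) ≤ ν (Bad K S)
    · exact hmax ⟨S, hS⟩ h
    · exact (not_le.1 h).le.trans hS1
  -- the maximum principle
  have hstep : ∀ g : G, p g ≠ 0 → ∀ S ∈ Fam hb, M ≤ ν (Bad K S) →
      M ≤ ν (Bad K (S.map (MulAut.conj g⁻¹).toMonoidHom)) := by
    intro g hg S hS hMS
    by_contra hlt
    rw [not_le] at hlt
    have h1 : ν (Bad K S) = ∑' k, p k * ν (Bad K (S.map (MulAut.conj k⁻¹).toMonoidHom)) := by
      rw [hst _ (measurable_bad hfix S)]
      refine tsum_congr fun k => ?_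
      rw [bad_smul hK]
    have h2 : ∑' k, p k * M = M := by
      rw [ENNReal.tsum_mul_right, hp, one_mul]
    have hpk : ∀ k, p k ≠ ∞ := fun k => by
      have : p k ≤ 1 := hp ▸ ENNReal.le_tsum k
      exact ne_top_of_le_ne_top ENNReal.one_ne_top this
    have h3 : ∑' k, p k * ν (Bad K (S.map (MulAut.conj k⁻¹).toMonoidHom)) < ∑' k, p k * M := by
      refine ENNReal.tsum_lt_tsum (i := g) ?_ ?_ ?_
      · rw [← h1]
        exact measure_ne_top ν _
      · intro k
        exact mul_le_mul_right (hmax' _ (fam_conj hb S hS k⁻¹)) _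
      · exact (ENNReal.mul_lt_mul_iff_right hg (hpk g)).2 hlt
    rw [← h1, h2] at h3
    exact absurd hMS (not_le.2 h3)
  have hall : ∀ g : G, ∀ S ∈ Fam hb, M ≤ ν (Bad K S) →
      M ≤ ν (Bad K (S.map (MulAut.conj g⁻¹).toMonoidHom)) := by
    intro g
    have hg : g ∈ Submonoid.closure {g | p g ≠ 0} := by
      rw [hgen]
      trivial
    induction hg using Submonoid.closure_induction with
    | mem g hg => exact hstep g hg
    | one =>
      intro S hS h
      rw [inv_one, map_conj_one]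
      exact h
    | mul x y _ _ hx hy =>
      intro S hS h
      have h1 := hy _ (fam_conj hb S hS x⁻¹) (hx S hS h)
      rwa [map_conj_mul, ← mul_inv_rev] at h1
  -- finite index
  apply fam_index hb hw S1 S1.2
  have hf := hfin M hM0
  have : Finite {S : Fam hb | M ≤ ν (Bad K (S : Subgroup G))} := hf
  let Ψ : G ⧸ (S1 : Subgroup G) → {S : Fam hb | M ≤ ν (Bad K (S : Subgroup G))} := fun q =>
    ⟨⟨(S1 : Subgroup G).map (MulAut.conj q.out).toMonoidHom, fam_conj hb _ S1.2 _⟩, by
      have h1 := hall q.out⁻¹ S1 S1.2 le_rfl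
      rw [inv_inv] at h1
      exact h1⟩
  have hΨ : Function.Injective Ψ := by
    intro q r h
    have h1 : (S1 : Subgroup G).map (MulAut.conj q.out).toMonoidHom =
        (S1 : Subgroup G).map (MulAut.conj r.out).toMonoidHom :=
      congrArg (fun z : {S : Fam hb | M ≤ ν (Bad K (S : Subgroup G))} => ((z : Fam hb) : Subgroup G)) h
    have h2 := conj_eq hb hπ S1 S1.2 _ _ h1
    rw [← QuotientGroup.out_eq' q, ← QuotientGroup.out_eq' r]
    exact (QuotientGroup.eq.2 h2).symm
  have : Finite (G ⧸ (S1 : Subgroup G)) := Finite.of_injective Ψ hΨ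
  exact Subgroup.finiteIndex_of_finite_quotient

end act

end

end Pool.Agent.L7h59.IA
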